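import Pool.Agent.K14.Seq
import Pool.Agent.PFk.Asm
import Pool.Agent.Bst88.ThS

/-! Families all of whose strands are irreducible and all of whose triples do not commute: the
number of strands and the case of equality. -/

set_option autoImplicit false

namespace Pool.Agent.K14

open Module
open Pool.Agent.Conf14 (PB RkOne indep_iso)
open Pool.Agent.PB3 (Cen InvS IrrF schur cen_of_scalar)
open Pool.Agent.PFk
open Pool.Agent.Bst88 (big big_sw_o big_sw_p big_sw_q)
open Pool.Agent.Frm14 (PBN tw cr tw_succ cr_succ rkOne_tw ex ex_eq pbn_ex tw_two)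

universe u

theorem thmS_holds : ThmS.{u} := fun _ _ _ _ _ _ _ h hnc => Pool.Agent.Bst88.thmS h hnc

variable {N : ℕ} {V : Type u} [AddCommGroup V] [Module ℂ V]
  {c : Fin N → Fin N → (V ≃ₗ[ℂ] V)}

/-- irreducible strands, no commuting triples, central big loops -/
structure GA (c : Fin N → Fin N → (V ≃ₗ[ℂ] V)) : Prop where
  pb : PB c
  irr : ∀ s, ∀ W : Submodule ℂ V, InvS c s W → W = ⊥ ∨ W = ⊤
  nc : ∀ i j k, i ≠ j → i ≠ k → j ≠ k → ¬ Commute (c i j) (c i k)
  sph : ∀ k, Cen (big c k)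

theorem GA.toBs (h : GA c) {b : ℕ → ℕ → (V ≃ₗ[ℂ] V)}
    (hb : ∀ i j (hi : i < N) (hj : j < N), i < j → b i j = c ⟨i, hi⟩ ⟨j, hj⟩) :
    Bs N (Hg c) b := by
  refine ⟨pbn_of h.pb (le_refl N) hb, ?_, ?_, ?_⟩
  · intro i j hij hj
    rw [hb i j (by omega) hj hij]
    exact mem_Hg fun e => by
      have := congrArg Fin.val e
      simp at this
      omega
  · intro s hs W hW
    apply h.irr ⟨s, hs⟩ W
    intro j hj x hx
    have hne : (j : ℕ) ≠ s := fun e => hj (Fin.ext e)
    rcases lt_or_gt_of_ne hne with h1 | h1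
    · have h2 := hW j s h1 hs (Or.inr rfl) x hx
      rw [hb j s j.isLt hs h1] at h2
      rw [h.pb.symm]
      exact h2
    · have h2 := hW s j h1 j.isLt (Or.inl rfl) x hx
      rwa [hb s j hs j.isLt h1] at h2
  · intro i j k hij hjk hk
    rw [hb i j (by omega) (by omega) hij, hb j k (by omega) hk hjk, h.pb.symm ⟨i, _⟩]
    apply h.nc
    · exact fun e => by
        have := congrArg Fin.val e
        simp at this
        omega
    · exact fun e => by
        have := congrArg Fin.val e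
        simp at this
        omega
    · exact fun e => by
        have := congrArg Fin.val e
        simp at this
        omega

theorem ofBs {H : Subgroup (V ≃ₗ[ℂ] V)} (hc : PB c) {b : ℕ → ℕ → (V ≃ₗ[ℂ] V)}
    (hb : ∀ i j (hi : i < N) (hj : j < N), i < j → b i j = c ⟨i, hi⟩ ⟨j, hj⟩) (h : Bs N H b) :
    (∀ s, ∀ W : Submodule ℂ V, InvS c s W → W = ⊥ ∨ W = ⊤) ∧
      (∀ i j k, i ≠ j → i ≠ k → j ≠ k → ¬ Commute (c i j) (c i k)) := by
  have e : ∀ i j : Fin N, i ≠ j → fz N b i j = c i j := by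
    intro i j hij
    rcases lt_or_gt_of_ne hij with h1 | h1
    · rw [fz_lt h1, hb i j i.isLt j.isLt h1]
    · rw [fz_gt h1, hb j i j.isLt i.isLt h1, hc.symm]
  constructor
  · intro s W hW
    apply h.irr s s.isLt W
    intro i j hij hj hs x hx
    rw [hb i j (by omega) hj hij]
    rcases hs with h1 | h1
    · have h2 : (⟨i, by omega⟩ : Fin N) = s := Fin.ext h1
      rw [h2]
      apply hW _ _ x hx
      intro e
      have := congrArg Fin.val e
      simp at this
      omega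
    · have h2 : (⟨j, hj⟩ : Fin N) = s := Fin.ext h1
      rw [h2, hc.symm]
      apply hW _ _ x hx
      intro e
      have := congrArg Fin.val e
      simp at this
      omega
  · intro i j k hij hik hjk
    rw [← e i j hij, ← e i k hik]
    exact fz_nc h.pbn h.nc hij hik hjk

theorem GA.sw [FiniteDimensional ℂ V] (h : GA c) (hN : 4 ≤ N) {p q : Fin N}
    (hpq : (q : ℕ) = p + 1) : GA (Pool.Agent.Bst88.sw c p q) := by
  have hpb := Pool.Agent.Bst88.PB.sw h.pb hpq
  have hb : ∀ i j (hi : i < N) (hj : j < N), i < j → ex c i j = c ⟨i, hi⟩ ⟨j, hj⟩ :=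
    fun i j hi hj _ => ex_eq c hi hj
  have hp : (p : ℕ) + 1 < N := by rw [← hpq]; exact q.isLt
  have hq : q = ⟨p + 1, hp⟩ := Fin.ext hpq
  have h1 := (h.toBs hb).exch hN hp
  have h2 := sw_eq h.pb hb hp
  have h3 := ofBs (c := Pool.Agent.Bst88.sw c p q) hpb (b := Pool.Agent.Frm14.sw (ex c) p)
    (by
      intro i j hi hj hij
      rw [h2 i j hi hj hij, hq]) h1
  refine ⟨hpb, h3.1, h3.2, ?_⟩
  intro k
  by_cases h1 : k = p
  · rw [h1, big_sw_p h.pb hpq]
    exact h.sph q
  by_cases h2 : k = q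
  · rw [h2, big_sw_q h.pb hpq]
    exact (h.sph p).conj _
  · rw [big_sw_o h.pb hpq h1 h2]
    exact h.sph k

theorem GA.irrF (h : GA c) (hN : 0 < N) : IrrF c := by
  intro W hW
  exact h.irr ⟨0, hN⟩ W fun j hj => hW _ j hj.symm

/-- the twists of the initial segments do not commute with the next generator -/
theorem GA.edge [FiniteDimensional ℂ V] [Nontrivial V] (h : GA c) (hN : finrank ℂ V + 2 ≤ N)
    (h6 : ¬ (N = 6 ∧ finrank ℂ V = 4)) {x y z : Fin N} (hxy : (x : ℕ) + 1 = y)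
    (hx : 0 < (x : ℕ)) (hyz : y < z) : ¬ Commute (fd c (low y)) (c x y) := by
  intro hc
  have hyz' : (y : ℕ) < z := hyz
  have hz := z.isLt
  have hb : ∀ i j (hi : i < N) (hj : j < N), i < j → ex c i j = c ⟨i, hi⟩ ⟨j, hj⟩ :=
    fun i j hi hj _ => ex_eq c hi hj
  have hB := h.toBs hb
  have hxl : x < y := by rw [Fin.lt_def]; omega
  have hbxy : ex c x y = c x y := ex_eq c x.isLt y.isLt
  have hpos : 0 < finrank ℂ V := finrank_pos
  by_cases hx1 : (x : ℕ) = 1
  · -- a triple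
    have e : tw (ex c) 2 = fd c (low ⟨2, by omega⟩) := tw_eq h.pb hb (by omega)
    have hy2 : y = ⟨2, by omega⟩ := Fin.ext (by show (y : ℕ) = 2; omega)
    rw [hy2, ← e, tw_two, ← hy2, ← hbxy] at hc
    have := hB.nc 0 1 2 (by omega) (by omega) (by omega)
    apply this
    rw [hx1, show (y : ℕ) = 2 by omega] at hc
    exact hc
  by_cases hlast : (y : ℕ) + 2 = N
  · -- the sphere relation
    have hzN : (z : ℕ) + 1 = N := by omega
    have e := fd_last h.pb (p := y) (q := z) (by omega) hzN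
    have hT : Commute (fd c (List.finRange N)) (c x y) :=
      fd_comm h.pb (List.pairwise_lt_finRange N) (List.mem_finRange _) (List.mem_finRange _) hxl
    have e2 : c y z = (big c z) * (fd c (List.finRange N))⁻¹ * fd c (low y) * big c y := by
      have h1 := (h.sph z) (fd c (low y) * (big c y * (c y z)⁻¹))
      have h2 : fd c (List.finRange N) = big c z * (fd c (low y) * (big c y * (c y z)⁻¹)) := by
        rw [e, ← h1.eq]
      have h3 := (h.sph y) (c y z)
      rw [h2]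
      have h4 : big c y * c y z = c y z * big c y := h3
      have h5 : ((big c z) * (fd c (low y) * (big c y * (c y z)⁻¹)))⁻¹ =
          c y z * (big c y)⁻¹ * (fd c (low y))⁻¹ * (big c z)⁻¹ := by group
      rw [h5]
      have h6 : big c z * (c y z * (big c y)⁻¹ * (fd c (low y))⁻¹ * (big c z)⁻¹) =
          c y z * (big c y)⁻¹ * (fd c (low y))⁻¹ := by
        have := ((h.sph z) (c y z * (big c y)⁻¹ * (fd c (low y))⁻¹)).eq
        calc big c z * (c y z * (big c y)⁻¹ * (fd c (low y))⁻¹ * (big c z)⁻¹) =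
            big c z * (c y z * (big c y)⁻¹ * (fd c (low y))⁻¹) * (big c z)⁻¹ := by group
          _ = _ := by rw [this]; group
      rw [h6]
      group
    have h7 : Commute (c y z) (c x y) := by
      rw [e2]
      exact (((h.sph z _).mul_left hT.inv_left).mul_left hc).mul_left (h.sph y _)
    rw [h.pb.symm x y] at h7
    exact h.nc y z x hyz.ne hxl.ne' (hxl.trans hyz).ne' h7
  · -- splitting
    have e1 := fd_low_succ h.pb hxy
    have hlc : Commute (lp (fun u => c u x) (low x)) (c x y) := by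
      have h1 : Commute (fd c (low x)) (c x y) := by
        apply Commute.symm
        apply fd_commute (low_sorted x)
        intro u hu v hv huv
        rw [mem_low] at hu hv
        exact (h.pb.q1 u v x y huv hv hxl).symm
      have h2 : lp (fun u => c u x) (low x) = (fd c (low x))⁻¹ * fd c (low y) := by
        rw [e1]; group
      rw [h2]
      exact h1.inv_left.mul_left hc
    have hf := fun {e s : Fin N} (hye : y < e) (hs : s < x) {g : V ≃ₗ[ℂ] V} (hg : g ∈ Hg c) =>
      f_plus h.pb hxl hye hs hlc hg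
    let S : Set (V ≃ₗ[ℂ] V) := {f | ∃ g ∈ Hg c, f = g * c x y * g⁻¹}
    have hS1 : ∀ g ∈ Hg c, ∀ z ∈ S, g⁻¹ * z * g ∈ S := by
      rintro g hg _ ⟨g', hg', rfl⟩
      refine ⟨g⁻¹ * g', (Hg c).mul_mem ((Hg c).inv_mem hg) hg', ?_⟩
      group
    have hS2 : ∀ g ∈ Hg c, ∀ z ∈ S, g * z * g⁻¹ ∈ S := by
      rintro g hg _ ⟨g', hg', rfl⟩
      refine ⟨g * g', (Hg c).mul_mem hg hg', ?_⟩
      group
    have hP : PSit N x (Hg c) S (fun i => decide (i < (x : ℕ))) (ex c) := by
      refine ⟨hB, ?_, ?_, ?_⟩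
      · intro i j hij hj h1 h2 h3 h4 hT w hw
        have hix : i < (x : ℕ) ∧ (y : ℕ) < j := by
          have h5 : ¬ ((i < (x : ℕ)) ↔ (j < (x : ℕ))) := fun h6 => hT (by simp only [h6])
          omega
        obtain ⟨g, hg, rfl⟩ := hw
        rw [hb i j (by omega) hj hij]
        have h6 := hf (e := ⟨j, hj⟩) (s := ⟨i, by omega⟩) (Fin.lt_def.mpr hix.2)
          (Fin.lt_def.mpr hix.1) ((Hg c).inv_mem hg)
        rw [h.pb.symm ⟨j, hj⟩] at h6
        have h7 := Pool.Agent.Frm14.conj_comm (x := g) h6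
        have h8 : g * (g⁻¹ * c ⟨i, by omega⟩ ⟨j, hj⟩ * g⁻¹⁻¹) * g⁻¹ = c ⟨i, by omega⟩ ⟨j, hj⟩ := by
          group
        rw [h8] at h7
        exact h7.symm
      · intro β
        cases β
        · refine ⟨(y : ℕ) + 1, (y : ℕ) + 2, by omega, by omega, by omega, by omega, by omega, ?_, ?_⟩
          · simp only [decide_eq_false_iff_not]; omega
          · simp only [decide_eq_false_iff_not]; omega
        · refine ⟨0, 1, by omega, by omega, by omega, by omega, by omega, ?_, ?_⟩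
          · simp only [decide_eq_true_eq]; omega
          · simp only [decide_eq_true_eq]; omega
      · rw [hxy, hbxy]
        exact ⟨1, (Hg c).one_mem, by simp⟩
    exact PSit.false thmS_holds hN (by omega) hS1 hS2 (N - 2 - x) x _ _ (by omega) hP

theorem GA.tnc [FiniteDimensional ℂ V] [Nontrivial V] (h : GA c) (hN : finrank ℂ V + 2 ≤ N)
    (h6 : ¬ (N = 6 ∧ finrank ℂ V = 4)) {b : ℕ → ℕ → (V ≃ₗ[ℂ] V)}
    (hb : ∀ i j (hi : i < N) (hj : j < N), i < j → b i j = c ⟨i, hi⟩ ⟨j, hj⟩) {j : ℕ}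
    (h2 : 2 ≤ j) (hj : j + 1 < N) : ¬ Commute (tw b j) (b (j - 1) j) := by
  rw [tw_eq h.pb hb (k := j) (by omega), hb (j - 1) j (by omega) (by omega) (by omega)]
  refine h.edge hN h6 (x := ⟨j - 1, by omega⟩) (y := ⟨j, by omega⟩) (z := ⟨j + 1, hj⟩) ?_ ?_ ?_
  · show j - 1 + 1 = j
    omega
  · show 0 < j - 1
    omega
  · rw [Fin.lt_def]
    show j < j + 1
    omega

/-- the number of strands -/
theorem GA.bound [FiniteDimensional ℂ V] [Nontrivial V] (h : GA c) (hN : finrank ℂ V + 2 ≤ N)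
    (h6 : ¬ (N = 6 ∧ finrank ℂ V = 4)) : N ≤ finrank ℂ V + 2 := by
  have : 0 < finrank ℂ V := finrank_pos
  obtain ⟨k, rfl⟩ : ∃ k, N = k + 3 := ⟨N - 3, by omega⟩
  have hb : ∀ i j (hi : i < k + 3) (hj : j < k + 3), i < j → ex c i j = c ⟨i, hi⟩ ⟨j, hj⟩ :=
    fun i j hi hj _ => ex_eq c hi hj
  have hc := (pbn_of h.pb (m := k + 2) (by omega) hb).chn fun j h2 hj =>
    h.tnc hN h6 hb h2 (by omega)
  have := indep_iso _ _ (fun _ => 0) hc.hx (fun i j hij _ => hc.hxy i j hij) hc.hne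
  rw [Fintype.card_fin] at this
  omega

/-- the case of equality, last pair -/
theorem GA.last [FiniteDimensional ℂ V] [Nontrivial V] (h : GA c) (hN4 : 4 ≤ N)
    (hN : N = finrank ℂ V + 2) (h6 : ¬ (N = 6 ∧ finrank ℂ V = 4)) {p q : Fin N}
    (hpq : (p : ℕ) + 1 = q) (hq : (q : ℕ) + 1 = N) : RkOne (c p q) := by
  have hp : (p : ℕ) = finrank ℂ V := by omega
  obtain ⟨b, hb'⟩ : ∃ b : ℕ → ℕ → (V ≃ₗ[ℂ] V), b = ex c := ⟨_, rfl⟩
  have hb : ∀ i j (hi : i < N) (hj : j < N), i < j → b i j = c ⟨i, hi⟩ ⟨j, hj⟩ := by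
    intro i j hi hj _
    rw [hb', ex_eq c hi hj]
  have key : RkOne (tw b (finrank ℂ V)) := by
    refine rkOne_tw (by omega) rfl (fun b => ∃ c : Fin N → Fin N → (V ≃ₗ[ℂ] V), GA c ∧
      ∀ i j (hi : i < N) (hj : j < N), i < j → b i j = c ⟨i, hi⟩ ⟨j, hj⟩) ?_ ?_ ?_ b ⟨c, h, hb⟩
    · rintro b ⟨c, hc, hb⟩
      exact pbn_of hc.pb (by omega) hb
    · rintro b ⟨c, hc, hb⟩ p hp
      exact ⟨_, hc.sw hN4 (p := ⟨p, by omega⟩) (q := ⟨p + 1, by omega⟩) rfl,
        sw_eq hc.pb hb (by omega)⟩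
    · rintro b ⟨c, hc, hb⟩ j h2 hj
      exact hc.tnc (by omega) h6 hb h2 (by omega)
  rw [tw_eq h.pb hb (k := finrank ℂ V) (by omega)] at key
  have hpe : (⟨finrank ℂ V, by omega⟩ : Fin N) = p := Fin.ext hp.symm
  rw [hpe] at key
  have hirr : ∀ U : Submodule ℂ V, (∀ f ∈ ({f | ∃ k l, k ≠ l ∧ f = c k l} : Set (V ≃ₗ[ℂ] V)),
      ∀ x ∈ U, f x ∈ U) → U = ⊥ ∨ U = ⊤ := by
    intro U hU
    exact h.irrF (by omega) U fun k l hkl => hU _ ⟨k, l, hkl, rfl⟩
  -- the full twist is central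
  have hcen : Cen (fd c (List.finRange N)) := by
    obtain ⟨s, hs⟩ := schur hirr (fd c (List.finRange N)) (by
      rintro f ⟨k, l, hkl, rfl⟩
      rcases lt_or_gt_of_ne hkl with h1 | h1
      · exact fd_comm h.pb (List.pairwise_lt_finRange N) (List.mem_finRange _)
          (List.mem_finRange _) h1
      · rw [h.pb.symm]
        exact fd_comm h.pb (List.pairwise_lt_finRange N) (List.mem_finRange _)
          (List.mem_finRange _) h1)
    exact cen_of_scalar hs
  have e := fd_last h.pb hpq hq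
  have e2 : fd c (low p) = (fd c (List.finRange N) * (big c q)⁻¹ * (big c p)⁻¹) * c p q := by
    have hc := h.sph p
    have h1 : fd c (low p) = fd c (List.finRange N) * (big c q)⁻¹ * (c p q * (big c p)⁻¹) := by
      rw [e]
      group
    rw [h1, ← (hc.inv (c p q)).eq]
    group
  rw [e2] at key
  obtain ⟨s, hs⟩ := schur hirr (fd c (List.finRange N) * (big c q)⁻¹ * (big c p)⁻¹) (by
      intro f _
      exact ((hcen.mul (h.sph q).inv).mul (h.sph p).inv) f)
  exact cen_mul_rkOne hs key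

/-- the case of equality, all pairs -/
theorem GA.rkOne [FiniteDimensional ℂ V] [Nontrivial V] (hN4 : 4 ≤ N)
    (hN : N = finrank ℂ V + 2) (h6 : ¬ (N = 6 ∧ finrank ℂ V = 4)) : ∀ (d : ℕ)
      (c : Fin N → Fin N → (V ≃ₗ[ℂ] V)), GA c → ∀ i j : Fin N, i < j →
      (i : ℕ) + j + d + 3 = 2 * N → RkOne (c i j) := by
  intro d
  induction d with
  | zero =>
      intro c h i j hij hd
      have h1 := i.2
      have h3 := j.2
      rw [Fin.lt_def] at hij
      exact h.last hN4 hN h6 (p := i) (q := j) (by omega) (by omega)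
  | succ d ih =>
      intro c h i j hij hd
      have h1 := i.2
      have h3 := j.2
      rw [Fin.lt_def] at hij
      by_cases h4 : (j : ℕ) + 1 < N
      · obtain ⟨q, hq⟩ : ∃ q : Fin N, (q : ℕ) = j + 1 := ⟨⟨j + 1, h4⟩, rfl⟩
        have h5 := ih _ (h.sw hN4 hq) i q (by rw [Fin.lt_def]; omega) (by omega)
        rw [Pool.Agent.Bst88.sw_q' (by rw [Ne, Fin.ext_iff]; omega)
          (by rw [Ne, Fin.ext_iff]; omega)] at h5
        exact rkOne_conj h5
      · obtain ⟨q, hq⟩ : ∃ q : Fin N, (q : ℕ) = i + 1 := ⟨⟨i + 1, by omega⟩, rfl⟩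
        have h5 := ih _ (h.sw hN4 hq) q j (by rw [Fin.lt_def]; omega) (by omega)
        rw [Pool.Agent.Bst88.sw_q (by rw [Ne, Fin.ext_iff]; omega)
          (by rw [Ne, Fin.ext_iff]; omega)] at h5
        exact rkOne_conj h5

/-- **Case (A).** -/
theorem caseA [FiniteDimensional ℂ V] [Nontrivial V] (h : GA c) (hN4 : 4 ≤ N)
    (hN : finrank ℂ V + 2 ≤ N) (h6 : ¬ (N = 6 ∧ finrank ℂ V = 4)) :
    N = finrank ℂ V + 2 ∧ ∀ i j, i ≠ j → RkOne (c i j) := by
  have hb := h.bound hN h6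
  have he : N = finrank ℂ V + 2 := by omega
  refine ⟨he, fun i j hij => ?_⟩
  rcases lt_or_gt_of_ne hij with h1 | h1
  · have h3 := i.2
    have h4 := j.2
    rw [Fin.lt_def] at h1
    exact GA.rkOne hN4 he h6 (2 * N - 3 - i - j) c h i j h1 (by omega)
  · have h3 := i.2
    have h4 := j.2
    rw [h.pb.symm]
    rw [Fin.lt_def] at h1
    exact GA.rkOne hN4 he h6 (2 * N - 3 - i - j) c h j i h1 (by omega)

end Pool.Agent.K14
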