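import Mathlib

/-! Semisimple modules over an algebra of operators: a small subspace which generates, and a large
one which contains no submodule. -/

set_option autoImplicit false

namespace Pool.Agent.K14

open Module

variable {V : Type*} [AddCommGroup V] [Module ℂ V]

theorem simple_scalar {R M : Type*} [Ring R] [Algebra ℂ R] [AddCommGroup M] [Module ℂ M]
    [Module R M] [IsScalarTower ℂ R M] [FiniteDimensional ℂ M] [IsSimpleModule R M]
    (f : M →ₗ[R] M) : ∃ c : ℂ, ∀ v, f v = c • v := by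
  obtain ⟨c, hc⟩ :=
    (IsSimpleModule.algebraMap_end_bijective_of_isAlgClosed (A := R) (V := M) ℂ).2 f
  refine ⟨c, fun v => ?_⟩
  rw [← hc]
  rfl

theorem exists_LQ {R : Type*} [Ring R] [Algebra ℂ R] [Module R V] [IsScalarTower ℂ R V]
    [FiniteDimensional ℂ V] [IsSemisimpleModule R V]
    (hd : ∀ S : Submodule R V, IsSimpleModule R S → 2 ≤ finrank ℂ S) :
    ∃ (L Q : Submodule ℂ V), 2 * finrank ℂ L ≤ finrank ℂ V ∧ finrank ℂ V ≤ 2 * finrank ℂ Q ∧
      (∀ T : V →ₗ[R] V, ∀ v ∈ L, T v ∈ L) ∧ (∀ T : V →ₗ[R] V, ∀ v ∈ Q, T v ∈ Q) ∧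
      (∀ W : Submodule R V, (∀ v ∈ L, v ∈ W) → W = ⊤) ∧
      (∀ W : Submodule R V, (∀ v ∈ W, v ∈ Q) → W = ⊥) := by
  classical
  have : Module.Finite R V := Module.Finite.of_restrictScalars_finite ℂ R V
  obtain ⟨q, S, e0, hS⟩ := IsSemisimpleModule.exists_linearEquiv_fin_dfinsupp R V
  have hSi := hS
  let e : V ≃ₗ[R] (∀ i, S i) := e0.trans (DFinsupp.linearEquivFunOnFintype)
  have hfd : ∀ i, FiniteDimensional ℂ (S i) := fun i =>
    FiniteDimensional.of_injective ((S i).subtype.restrictScalars ℂ) (S i).injective_subtype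
  have hnt : ∀ i, Nontrivial (S i) := fun i => IsSimpleModule.nontrivial R (S i)
  -- representatives
  let st : Setoid (Fin q) := ⟨fun i j => Nonempty (S i ≃ₗ[R] S j),
    ⟨fun i => ⟨LinearEquiv.refl R _⟩, fun ⟨f⟩ => ⟨f.symm⟩, fun ⟨f⟩ ⟨g⟩ => ⟨f.trans g⟩⟩⟩
  let rep : Fin q → Fin q := fun i => (Quotient.mk st i).out
  have hrep : ∀ i, Nonempty (S (rep i) ≃ₗ[R] S i) := fun i => Quotient.mk_out (s := st) i
  have hrep' : ∀ i j, Nonempty (S i ≃ₗ[R] S j) → rep i = rep j := fun i j hij => by
    show (Quotient.mk st i).out = (Quotient.mk st j).out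
    rw [Quotient.sound (s := st) hij]
  let θ : ∀ i, S (rep i) ≃ₗ[R] S i := fun i => (hrep i).some
  choose w0 hw0 using fun i => exists_ne (0 : S i)
  have hψ : ∀ i, ∃ ψ : S i →ₗ[ℂ] ℂ, ψ (w0 i) ≠ 0 := fun i => by
    by_contra hcon
    push Not at hcon
    exact hw0 i ((Module.forall_dual_apply_eq_zero_iff ℂ (w0 i)).mp hcon)
  choose ψ0 hψ0 using hψ
  let w : ∀ i, S i := fun i => θ i (w0 (rep i))
  let ψ : ∀ i, S i →ₗ[ℂ] ℂ := fun i => ψ0 (rep i) ∘ₗ ((θ i).symm.restrictScalars ℂ).toLinearMap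
  have hw : ∀ i, w i ≠ 0 := fun i h => hw0 (rep i) ((map_eq_zero_iff _ (θ i).injective).mp h)
  have hψw : ∀ i, ψ i (w i) ≠ 0 := fun i => by
    show ψ0 (rep i) ((θ i).symm (θ i (w0 (rep i)))) ≠ 0
    rw [LinearEquiv.symm_apply_apply]
    exact hψ0 _
  -- compatibility
  have aux : ∀ a b : Fin q, a = b → ∀ i j (θi : S a ≃ₗ[R] S i) (θj : S b ≃ₗ[R] S j)
      (T : S j →ₗ[R] S i), ∃ c : ℂ, T (θj (w0 b)) = c • θi (w0 a) ∧
        ∀ v : S j, ψ0 a (θi.symm (T v)) = c * ψ0 b (θj.symm v) := by
    rintro a b rfl i j θi θj T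
    obtain ⟨c, hc⟩ := simple_scalar (R := R) (M := S a)
      (θi.symm.toLinearMap ∘ₗ T ∘ₗ θj.toLinearMap)
    have hc' : ∀ v, θi.symm (T (θj v)) = c • v := hc
    refine ⟨c, ?_, fun v => ?_⟩
    · apply θi.symm.injective
      rw [hc']
      have : θi.symm (c • θi (w0 a)) = c • θi.symm (θi (w0 a)) :=
        (θi.symm.restrictScalars ℂ).map_smul c _
      rw [this, LinearEquiv.symm_apply_apply]
    · have := hc' (θj.symm v)
      rw [LinearEquiv.apply_symm_apply] at this
      rw [this, map_smul, smul_eq_mul]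
  have compat : ∀ i j (T : S j →ₗ[R] S i), ∃ c : ℂ, T (w j) = c • w i ∧
      ∀ v : S j, ψ i (T v) = c * ψ j v := by
    intro i j T
    rcases T.bijective_or_eq_zero with h | h
    · exact aux (rep i) (rep j) (hrep' i j ⟨(LinearEquiv.ofBijective T h).symm⟩) i j (θ i) (θ j) T
    · refine ⟨0, ?_, fun v => ?_⟩
      · rw [h, zero_smul]; rfl
      · rw [h, zero_mul]
        exact map_zero _
  -- expansion
  have hexp : ∀ v : V, v = ∑ j, e.symm (Pi.single j (e v j)) := by
    intro v
    rw [← map_sum]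
    apply e.injective
    rw [LinearEquiv.apply_symm_apply]
    exact (Finset.univ_sum_single (e v)).symm
  have hcomp : ∀ (T : V →ₗ[R] V) (v : V) (i : Fin q),
      e (T v) i = ∑ j, (LinearMap.proj i ∘ₗ e.toLinearMap ∘ₗ T ∘ₗ e.symm.toLinearMap ∘ₗ
        LinearMap.single R (fun i => S i) j) (e v j) := by
    intro T v i
    conv_lhs => rw [hexp v]
    rw [map_sum, map_sum, Finset.sum_apply]
    rfl
  have hsmul : ∀ (c : ℂ) (v : V) i, e (c • v) i = c • e v i := fun c v i => by
    have : e (c • v) = c • e v := (e.restrictScalars ℂ).map_smul c v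
    rw [this]; rfl
  let L : Submodule ℂ V :=
    { carrier := {v | ∀ i, ∃ c : ℂ, e v i = c • w i}
      zero_mem' := fun i => ⟨0, by rw [map_zero, zero_smul]; rfl⟩
      add_mem' := fun {u v} hu hv i => by
        obtain ⟨c, hc⟩ := hu i
        obtain ⟨d, hd⟩ := hv i
        exact ⟨c + d, by rw [map_add, Pi.add_apply, hc, hd, add_smul]⟩
      smul_mem' := fun a v hv i => by
        obtain ⟨c, hc⟩ := hv i
        exact ⟨a * c, by rw [hsmul, hc, mul_smul]⟩ }
  let pr : V →ₗ[ℂ] (Fin q → ℂ) :=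
    LinearMap.pi fun i => ψ i ∘ₗ (LinearMap.proj i : (∀ i, S i) →ₗ[ℂ] S i) ∘ₗ
      (e.restrictScalars ℂ).toLinearMap
  have hpr : ∀ v i, pr v i = ψ i (e v i) := fun v i => rfl
  have hq : 2 * q ≤ finrank ℂ V := by
    have h1 : finrank ℂ V = finrank ℂ (∀ i, S i) := (e.restrictScalars ℂ).finrank_eq
    rw [h1, Module.finrank_pi_fintype ℂ]
    have h2 : ∑ _i : Fin q, 2 ≤ ∑ i, finrank ℂ (S i) := Finset.sum_le_sum fun i _ => hd _ (hS i)
    have h3 : ∑ _i : Fin q, 2 = 2 * q := by
      rw [Finset.sum_const, Finset.card_univ, Fintype.card_fin, smul_eq_mul, mul_comm]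
    omega
  refine ⟨L, LinearMap.ker pr, ?_, ?_, ?_, ?_, ?_, ?_⟩
  · have h1 : L ≤ Submodule.span ℂ (Set.range fun i => e.symm (Pi.single i (w i))) := by
      intro v hv
      rw [hexp v]
      apply Submodule.sum_mem
      intro j _
      obtain ⟨c, hc⟩ := hv j
      have : e.symm (Pi.single j (e v j)) = c • e.symm (Pi.single j (w j)) := by
        have h2 : (Pi.single j (e v j) : ∀ i, S i) = c • Pi.single j (w j) := by
          rw [hc, Pi.single_smul]
        rw [h2]
        exact (e.symm.restrictScalars ℂ).map_smul c _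
      rw [this]
      exact Submodule.smul_mem _ _ (Submodule.subset_span ⟨j, rfl⟩)
    have h2 := Submodule.finrank_mono h1
    have h3 := finrank_range_le_card (R := ℂ) (fun i => e.symm (Pi.single i (w i)))
    rw [Fintype.card_fin] at h3
    have h4 : finrank ℂ (Submodule.span ℂ (Set.range fun i => e.symm (Pi.single i (w i)))) ≤ q := h3
    omega
  · have h1 := pr.finrank_range_add_finrank_ker
    have h2 : finrank ℂ (LinearMap.range pr) ≤ q := by
      have := Submodule.finrank_le (LinearMap.range pr)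
      rwa [Module.finrank_pi, Fintype.card_fin] at this
    omega
  · intro T v hv i
    rw [hcomp]
    choose c hc using fun j => hv j
    choose d hd1 hd2 using fun j => compat i j (LinearMap.proj i ∘ₗ e.toLinearMap ∘ₗ T ∘ₗ
      e.symm.toLinearMap ∘ₗ LinearMap.single R (fun i => S i) j)
    refine ⟨∑ j, c j * d j, ?_⟩
    rw [Finset.sum_smul]
    refine Finset.sum_congr rfl fun j _ => ?_
    rw [hc j, mul_smul, ← hd1 j]
    exact LinearMap.map_smul_of_tower (R := ℂ) _ _ _
  · intro T v hv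
    rw [LinearMap.mem_ker] at hv ⊢
    funext i
    rw [hpr, hcomp, map_sum, Pi.zero_apply]
    refine Finset.sum_eq_zero fun j _ => ?_
    obtain ⟨d, -, hd2⟩ := compat i j (LinearMap.proj i ∘ₗ e.toLinearMap ∘ₗ T ∘ₗ
      e.symm.toLinearMap ∘ₗ LinearMap.single R (fun i => S i) j)
    rw [hd2, ← hpr, hv, Pi.zero_apply, mul_zero]
  · intro W hW
    rw [eq_top_iff]
    intro v _
    rw [hexp v]
    apply Submodule.sum_mem
    intro j _
    have h1 : W.comap (e.symm.toLinearMap ∘ₗ LinearMap.single R (fun i => S i) j) = ⊤ := by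
      rcases eq_bot_or_eq_top (W.comap (e.symm.toLinearMap ∘ₗ LinearMap.single R (fun i => S i) j)) with h | h
      · exfalso
        have : w j ∈ W.comap (e.symm.toLinearMap ∘ₗ LinearMap.single R (fun i => S i) j) := by
          apply hW
          intro i
          have h2 : e ((e.symm.toLinearMap ∘ₗ LinearMap.single R (fun i => S i) j) (w j)) = Pi.single j (w j) :=
            e.apply_symm_apply _
          rw [h2]
          by_cases hij : i = j
          · subst hij
            exact ⟨1, by rw [Pi.single_eq_same, one_smul]⟩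
          · exact ⟨0, by rw [Pi.single_eq_of_ne hij, zero_smul]⟩
        rw [h, Submodule.mem_bot] at this
        exact hw j this
      · exact h
    have h2 : e v j ∈ W.comap (e.symm.toLinearMap ∘ₗ LinearMap.single R (fun i => S i) j) := by
      rw [h1]; exact Submodule.mem_top
    exact h2
  · intro W hW
    rw [eq_bot_iff]
    intro v hv
    rw [Submodule.mem_bot]
    apply e.injective
    rw [map_zero]
    funext i
    have h1 : W.map (LinearMap.proj i ∘ₗ e.toLinearMap) = ⊥ := by
      rcases eq_bot_or_eq_top (W.map (LinearMap.proj i ∘ₗ e.toLinearMap)) with h | h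
      · exact h
      · exfalso
        have : w i ∈ W.map (LinearMap.proj i ∘ₗ e.toLinearMap) := by rw [h]; exact Submodule.mem_top
        obtain ⟨u, hu, hu'⟩ := this
        have h2 := hW u hu
        rw [LinearMap.mem_ker] at h2
        have h3 := congrFun h2 i
        rw [hpr, show e u i = w i from hu'] at h3
        exact hψw i h3
    have h2 : e v i ∈ W.map (LinearMap.proj i ∘ₗ e.toLinearMap) := ⟨v, hv, rfl⟩
    rw [h1, Submodule.mem_bot] at h2
    exact h2

end Pool.Agent.K14
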