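import Pool.Agent.PB3.Chain
import Pool.Agent.K14.Sem

/-! The chain bound for operators which commute with a noncommutative irreducible-like set. -/

set_option autoImplicit false

namespace Pool.Agent.K14

open Module
open Pool.Agent.PB3 (exists_generic)

variable {V : Type*} [AddCommGroup V] [Module ℂ V]

theorem chain_LQ [FiniteDimensional ℂ V] [Nontrivial V] {ι : Type*} [Fintype ι] [LinearOrder ι]
    (x y : ι → V →ₗ[ℂ] V) (h0 : ∀ i, x i ∘ₗ y i ≠ y i ∘ₗ x i)
    (h1 : ∀ j i, j < i → x j ∘ₗ y i = y i ∘ₗ x j) (L Q : Submodule ℂ V)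
    (hL : ∀ i, ∀ v ∈ L, x i v ∈ L) (hQ : ∀ i, ∀ v ∈ Q, x i v ∈ Q)
    (gen : ∀ W : Submodule ℂ V, (∀ b : V →ₗ[ℂ] V, (∀ i, b ∘ₗ x i = x i ∘ₗ b) → ∀ v ∈ W, b v ∈ W) →
      L ≤ W → W = ⊤)
    (cogen : ∀ W : Submodule ℂ V, (∀ b : V →ₗ[ℂ] V, (∀ i, b ∘ₗ x i = x i ∘ₗ b) →
      ∀ v ∈ W, b v ∈ W) → W ≤ Q → W = ⊥) :
    Fintype.card ι + 2 ≤ finrank ℂ L + (finrank ℂ V - finrank ℂ Q) := by
  classical
  let B : Submodule ℂ (V →ₗ[ℂ] V) :=
    { carrier := {b | ∀ i, b ∘ₗ x i = x i ∘ₗ b}
      zero_mem' := fun i => by rw [LinearMap.zero_comp, LinearMap.comp_zero]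
      add_mem' := fun {a b} ha hb i => by rw [LinearMap.add_comp, LinearMap.comp_add, ha i, hb i]
      smul_mem' := fun c b hb i => by rw [LinearMap.smul_comp, LinearMap.comp_smul, hb i] }
  have hB : ∀ b : B, ∀ i v, b.1 (x i v) = x i (b.1 v) := fun b i v => LinearMap.congr_fun (b.2 i) v
  have hBmul : ∀ b c : V →ₗ[ℂ] V, b ∈ B → c ∈ B → b ∘ₗ c ∈ B := by
    intro b c hb hc i
    rw [LinearMap.comp_assoc, hc i, ← LinearMap.comp_assoc, hb i, LinearMap.comp_assoc]
  let D : Option ι → (V →ₗ[ℂ] V) := fun o => o.elim LinearMap.id (fun i => x i ∘ₗ y i - y i ∘ₗ x i)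
  have hD : ∀ o, D o ≠ 0 := by
    rintro (_ | i)
    · obtain ⟨u, hu⟩ := exists_ne (0 : V)
      exact fun h => hu (LinearMap.congr_fun h u)
    · show x i ∘ₗ y i - y i ∘ₗ x i ≠ 0
      rw [Ne, sub_eq_zero]
      exact h0 i
  -- the generic operator on the right
  obtain ⟨b, hb⟩ := exists_generic (V := B) (W := L →ₗ[ℂ] V) (ι := Option ι)
    (fun o => { toFun := fun b => D o ∘ₗ b.1 ∘ₗ L.subtype
                map_add' := fun a b => by
                  ext v; simp
                map_smul' := fun c b => by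
                  ext v; simp }) (by
      intro o hz
      have hz' : ∀ b : V →ₗ[ℂ] V, b ∈ B → ∀ v ∈ L, D o (b v) = 0 := fun b hb v hv =>
        LinearMap.congr_fun (LinearMap.congr_fun hz ⟨b, hb⟩) ⟨v, hv⟩
      let W : Submodule ℂ V := ⨆ b : B, L.map b.1
      have hW : W = ⊤ := by
        apply gen
        · intro c hc
          have : W ≤ W.comap c := by
            apply iSup_le
            intro b
            rintro _ ⟨v, hv, rfl⟩
            exact (le_iSup (fun b : B => L.map b.1) ⟨c ∘ₗ b.1, hBmul _ _ hc b.2⟩) ⟨v, hv, rfl⟩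
          exact fun v hv => this hv
        · intro v hv
          exact (le_iSup (fun b : B => L.map b.1) ⟨LinearMap.id, fun i => rfl⟩) ⟨v, hv, rfl⟩
      have hW2 : W ≤ LinearMap.ker (D o) := by
        apply iSup_le
        rintro b _ ⟨v, hv, rfl⟩
        exact hz' b.1 b.2 v hv
      rw [hW, top_le_iff, LinearMap.ker_eq_top] at hW2
      exact hD o hW2)
  obtain ⟨v0, hv0⟩ := exists_generic (V := L) (W := V) (ι := Option ι)
    (fun o => D o ∘ₗ b.1 ∘ₗ L.subtype) hb
  have hv0' : ∀ o, D o (b.1 v0) ≠ 0 := hv0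
  -- the generic operator on the left
  obtain ⟨b', hb'⟩ := exists_generic (V := B) (W := V ⧸ Q) (ι := Option ι)
    (fun o => { toFun := fun b' => Q.mkQ (b'.1 (D o (b.1 v0)))
                map_add' := fun a b => by simp
                map_smul' := fun c b => by simp }) (by
      intro o hz
      have hz' : ∀ c : V →ₗ[ℂ] V, c ∈ B → c (D o (b.1 v0)) ∈ Q := fun c hc => by
        have := LinearMap.congr_fun hz ⟨c, hc⟩
        exact (Submodule.Quotient.mk_eq_zero Q).mp this
      let W : Submodule ℂ V := ⨅ c : B, Q.comap c.1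
      have hmem : ∀ u, u ∈ W ↔ ∀ c : B, c.1 u ∈ Q := fun u => by
        simp only [W, Submodule.mem_iInf, Submodule.mem_comap]
      have hW : W = ⊥ := by
        apply cogen
        · intro c hc v hv
          rw [hmem] at hv ⊢
          intro d
          exact hv ⟨d.1 ∘ₗ c, hBmul _ _ d.2 hc⟩
        · intro v hv
          rw [hmem] at hv
          exact hv ⟨LinearMap.id, fun i => rfl⟩
      have : D o (b.1 v0) ∈ W := by
        rw [hmem]
        exact fun c => hz' c.1 c.2
      rw [hW, Submodule.mem_bot] at this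
      exact hv0' o this)
  have hb'' : ∀ o, Q.mkQ (b'.1 (D o (b.1 v0))) ≠ 0 := hb'
  obtain ⟨ψ, hψ⟩ := exists_generic (V := (V ⧸ Q) →ₗ[ℂ] ℂ) (W := ℂ) (ι := Option ι)
    (fun o => LinearMap.applyₗ (Q.mkQ (b'.1 (D o (b.1 v0))))) (by
      intro o h
      apply hb'' o
      rw [← Module.forall_dual_apply_eq_zero_iff ℂ]
      intro f
      exact LinearMap.congr_fun h f)
  have hψ' : ∀ o, ψ (Q.mkQ (b'.1 (D o (b.1 v0)))) ≠ 0 := hψ
  -- the linear map
  let X : ((ι → ℂ) × ℂ) →ₗ[ℂ] (V →ₗ[ℂ] V) :=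
    { toFun := fun p => ∑ j, p.1 j • x j + p.2 • LinearMap.id
      map_add' := fun p q => by
        simp only [Prod.fst_add, Prod.snd_add, Pi.add_apply, add_smul, Finset.sum_add_distrib]
        abel
      map_smul' := fun c p => by
        simp only [Prod.smul_fst, Prod.smul_snd, Pi.smul_apply, smul_eq_mul, mul_smul,
          RingHom.id_apply, smul_add, Finset.smul_sum] }
  have hXa : ∀ p u, X p u = ∑ j, p.1 j • x j u + p.2 • u := by
    intro p u
    show (∑ j, p.1 j • x j + p.2 • LinearMap.id : V →ₗ[ℂ] V) u = _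
    rw [LinearMap.add_apply, LinearMap.sum_apply]
    rfl
  have hXL : ∀ p, ∀ v ∈ L, X p v ∈ L := fun p v hv => by
    rw [hXa]
    exact L.add_mem (L.sum_mem fun j _ => L.smul_mem _ (hL j v hv)) (L.smul_mem _ hv)
  have hXQ : ∀ p, ∀ v ∈ Q, X p v ∈ Q := fun p v hv => by
    rw [hXa]
    exact Q.add_mem (Q.sum_mem fun j _ => Q.smul_mem _ (hQ j v hv)) (Q.smul_mem _ hv)
  have hXB : ∀ p, ∀ c : B, ∀ v, c.1 (X p v) = X p (c.1 v) := fun p c v => by
    rw [hXa, hXa, map_add, map_sum, map_smul]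
    simp only [map_smul, hB]
  let ψ' : V →ₗ[ℂ] ℂ := ψ ∘ₗ Q.mkQ
  have hψQ : ∀ v ∈ Q, ψ' v = 0 := fun v hv => by
    show ψ (Submodule.Quotient.mk v) = 0
    rw [(Submodule.Quotient.mk_eq_zero Q).mpr hv, map_zero]
  let Ψ : ((ι → ℂ) × ℂ) →ₗ[ℂ] (L × Q.dualAnnihilator) :=
    { toFun := fun p => (⟨X p v0, hXL p v0 v0.2⟩, ⟨ψ' ∘ₗ X p, by
        rw [Submodule.mem_dualAnnihilator]
        intro w hw
        exact hψQ _ (hXQ p w hw)⟩)
      map_add' := fun p q => by
        refine Prod.ext (Subtype.ext ?_) (Subtype.ext ?_)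
        · show X (p + q) v0 = X p v0 + X q v0
          rw [map_add]; rfl
        · show ψ' ∘ₗ X (p + q) = ψ' ∘ₗ X p + ψ' ∘ₗ X q
          rw [map_add, LinearMap.comp_add]
      map_smul' := fun c p => by
        refine Prod.ext (Subtype.ext ?_) (Subtype.ext ?_)
        · show X (c • p) v0 = c • X p v0
          rw [map_smul]; rfl
        · show ψ' ∘ₗ X (c • p) = c • (ψ' ∘ₗ X p)
          rw [map_smul, LinearMap.comp_smul] }
  have hinj : LinearMap.ker Ψ = ⊥ := by
    rw [LinearMap.ker_eq_bot']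
    rintro ⟨α, β⟩ hp
    have hp1 : X (α, β) v0 = 0 := congrArg Subtype.val (congrArg Prod.fst hp)
    have hp2 : ∀ u, ψ' (X (α, β) u) = 0 := fun u =>
      LinearMap.congr_fun (congrArg Subtype.val (congrArg Prod.snd hp)) u
    have hp3 : X (α, β) (b.1 v0) = 0 := by rw [← hXB, hp1, map_zero]
    have hα : ∀ i, α i = 0 := by
      intro i
      induction i using WellFoundedGT.induction with
      | ind i ih =>
        have h2 : ψ' (b'.1 (X (α, β) (y i (b.1 v0)))) - ψ' (b'.1 (y i (X (α, β) (b.1 v0)))) = 0 := by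
          rw [hXB, hp2, hp3, map_zero, map_zero, map_zero, sub_zero]
        have h3 : ψ' (b'.1 (X (α, β) (y i (b.1 v0)))) - ψ' (b'.1 (y i (X (α, β) (b.1 v0)))) =
            ∑ j, α j * ψ' (b'.1 (x j (y i (b.1 v0)) - y i (x j (b.1 v0)))) := by
          rw [hXa, hXa]
          simp only [map_add, map_sum, map_smul, smul_eq_mul, map_sub, mul_sub,
            Finset.sum_sub_distrib]
          ring
        rw [h3, Finset.sum_eq_single i] at h2
        · exact (mul_eq_zero.1 h2).resolve_right (hψ' (some i))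
        · intro j _ hji
          rcases lt_or_gt_of_ne hji with hlt | hgt
          · have h4 : x j (y i (b.1 v0)) = y i (x j (b.1 v0)) :=
              LinearMap.congr_fun (h1 j i hlt) (b.1 v0)
            rw [h4, sub_self, map_zero, map_zero, mul_zero]
          · rw [ih j hgt, zero_mul]
        · intro h
          exact absurd (Finset.mem_univ i) h
    have hβ : β = 0 := by
      have h2 := hp3
      rw [hXa] at h2
      simp only [hα, zero_smul, Finset.sum_const_zero, zero_add] at h2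
      exact (smul_eq_zero.1 h2).resolve_right (hv0' none)
    refine Prod.ext (funext hα) hβ
  -- the hyperplane
  let Λ : (L × Q.dualAnnihilator) →ₗ[ℂ] ℂ :=
    (ψ' ∘ₗ b'.1 ∘ₗ b.1 ∘ₗ L.subtype) ∘ₗ LinearMap.fst ℂ L Q.dualAnnihilator -
      (LinearMap.applyₗ (b'.1 (b.1 v0)) ∘ₗ Q.dualAnnihilator.subtype) ∘ₗ
        LinearMap.snd ℂ L Q.dualAnnihilator
  have hΛ : ∀ p, Λ p = ψ' (b'.1 (b.1 p.1)) - p.2.1 (b'.1 (b.1 v0)) := fun _ => rfl
  have hle : LinearMap.range Ψ ≤ LinearMap.ker Λ := by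
    rintro _ ⟨p, rfl⟩
    rw [LinearMap.mem_ker, hΛ]
    show ψ' (b'.1 (b.1 (X p v0))) - ψ' (X p (b'.1 (b.1 v0))) = 0
    rw [hXB, hXB, sub_self]
  have hΛne : LinearMap.ker Λ ≠ ⊤ := by
    intro h
    have : ((v0, 0) : L × Q.dualAnnihilator) ∈ LinearMap.ker Λ := by
      rw [h]; exact Submodule.mem_top
    rw [LinearMap.mem_ker, hΛ] at this
    have h5 : ψ' (b'.1 (b.1 v0)) = 0 := by simpa using this
    exact hψ' none h5
  have h2 := Submodule.finrank_mono hle
  have h3 := Submodule.finrank_lt hΛne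
  have h4 := LinearMap.finrank_range_of_inj (LinearMap.ker_eq_bot.1 hinj)
  rw [h4] at h2
  rw [Module.finrank_prod, Module.finrank_pi, Module.finrank_self] at h2
  have h5 := Subspace.finrank_add_finrank_dualAnnihilator_eq Q
  rw [Module.finrank_prod] at h3
  omega

end Pool.Agent.K14
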