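import Pool.Agent.K14.Ns

/-! No splitting. -/

set_option autoImplicit false

namespace Pool.Agent.K14

open Module
open Pool.Agent.Conf14 (PB g_comm)
open Pool.Agent.Frm14

universe u

/-- The bound for families all of whose triples do not commute. -/
def ThmS : Prop := ∀ (n : ℕ) (V : Type u) [AddCommGroup V] [Module ℂ V] [FiniteDimensional ℂ V]
  [Nontrivial V] (a : Fin n → Fin n → (V ≃ₗ[ℂ] V)), PB a →
  (∀ i j k, i ≠ j → i ≠ k → j ≠ k → ¬ Commute (a i j) (a i k)) → n ≤ finrank ℂ V + 2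

/-- the family indexed by `Fin` -/
def fz {G : Type*} [Group G] (n : ℕ) (b : ℕ → ℕ → G) (i j : Fin n) : G :=
  if (i : ℕ) < j then b i j else if (j : ℕ) < i then b j i else 1

theorem fz_lt {G : Type*} [Group G] {n : ℕ} {b : ℕ → ℕ → G} {i j : Fin n} (h : i < j) :
    fz n b i j = b i j := if_pos (Fin.lt_def.mp h)

theorem fz_gt {G : Type*} [Group G] {n : ℕ} {b : ℕ → ℕ → G} {i j : Fin n} (h : j < i) :
    fz n b i j = b j i := by
  have := Fin.lt_def.mp h
  rw [fz, if_neg (by omega), if_pos this]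

theorem fz_pb {G : Type*} [Group G] {n : ℕ} {b : ℕ → ℕ → G} (h : PBN n b) : PB (fz n b) := by
  constructor
  · intro i j
    rcases lt_trichotomy i j with h1 | h1 | h1
    · rw [fz_lt h1, fz_gt h1]
    · rw [h1]
    · rw [fz_gt h1, fz_lt h1]
  · intro i j k h1 h2
    rw [fz_lt h1, fz_lt h2, fz_lt (h1.trans h2)]
    exact h.t1 _ _ _ h1 h2 k.isLt
  · intro i j k h1 h2
    rw [fz_lt h1, fz_lt h2, fz_lt (h1.trans h2)]
    exact h.t2 _ _ _ h1 h2 k.isLt
  · intro i j k l h1 h2 h3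
    rw [fz_lt h1, fz_lt h3]
    exact h.q1 _ _ _ _ h1 h2 h3 l.isLt
  · intro i j k l h1 h2 h3
    rw [fz_lt h2, fz_lt ((h1.trans h2).trans h3)]
    exact h.q2 _ _ _ _ h1 h2 h3 l.isLt
  · intro i j k l h1 h2 h3
    rw [fz_lt h3, fz_lt (h1.trans h2), fz_lt (h2.trans h3)]
    exact h.q3 _ _ _ _ h1 h2 h3 l.isLt

/-- non commuting triples in any order -/
theorem fz_nc {G : Type*} [Group G] {n : ℕ} {b : ℕ → ℕ → G} (h : PBN n b)
    (hnc : ∀ i j k, i < j → j < k → k < n → ¬ Commute (b i j) (b j k)) {i j k : Fin n}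
    (hij : i ≠ j) (hik : i ≠ k) (hjk : j ≠ k) : ¬ Commute (fz n b i j) (fz n b i k) := by
  have key : ∀ j k : Fin n, i ≠ j → i ≠ k → j < k → ¬ Commute (fz n b i j) (fz n b i k) := by
    intro j k hij hik hjk
    rcases lt_or_gt_of_ne hij with h1 | h1
    · rw [fz_lt h1, fz_lt (h1.trans hjk)]
      exact fun hc => hnc i j k h1 hjk k.isLt (c3a h h1 hjk k.isLt hc)
    · rcases lt_or_gt_of_ne hik with h2 | h2
      · rw [fz_gt h1, fz_lt h2]
        exact hnc j i k h1 h2 k.isLt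
      · rw [fz_gt h1, fz_gt h2]
        exact fun hc => hnc j k i hjk h2 i.isLt (c3b h hjk h2 i.isLt hc)
  rcases lt_or_gt_of_ne hjk with h1 | h1
  · exact key j k hij hik h1
  · exact fun hc => key k j hik hij h1 hc.symm

variable {V : Type u} [AddCommGroup V] [Module ℂ V]

/-- the restriction of the centraliser to an eigenspace -/
noncomputable def rsH (t : V ≃ₗ[ℂ] V) (Y : Submodule ℂ V)
    (hY : ∀ f : V ≃ₗ[ℂ] V, Commute f t → ∀ v ∈ Y, f v ∈ Y) :
    Subgroup.centralizer ({t} : Set (V ≃ₗ[ℂ] V)) →* (Y ≃ₗ[ℂ] Y) where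
  toFun f := LinearEquiv.ofLinearMap
    ((f.1.toLinearMap).restrict (hY f.1 (Subgroup.mem_centralizer_iff.mp f.2 t rfl).symm))
    (((f⁻¹).1.toLinearMap).restrict (hY (f⁻¹).1 (Subgroup.mem_centralizer_iff.mp (f⁻¹).2 t rfl).symm))
    (by
      ext v
      exact f.1.apply_symm_apply v)
    (by
      ext v
      exact f.1.symm_apply_apply v)
  map_one' := by ext v; rfl
  map_mul' f g := by ext v; rfl

theorem rsH_apply {t : V ≃ₗ[ℂ] V} {Y : Submodule ℂ V}
    {hY : ∀ f : V ≃ₗ[ℂ] V, Commute f t → ∀ v ∈ Y, f v ∈ Y}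
    (f : Subgroup.centralizer ({t} : Set (V ≃ₗ[ℂ] V))) (v : Y) : (rsH t Y hY f v : V) = f.1 v := rfl

theorem pbn_map {G G' : Type*} [Group G] [Group G'] {n : ℕ} {b : ℕ → ℕ → G} (h : PBN n b)
    (f : G →* G') : PBN n (fun i j => f (b i j)) where
  t1 i j k h1 h2 h3 := by simpa using (h.t1 i j k h1 h2 h3).map f
  t2 i j k h1 h2 h3 := by simpa using (h.t2 i j k h1 h2 h3).map f
  q1 i j k l h1 h2 h3 h4 := (h.q1 i j k l h1 h2 h3 h4).map f
  q2 i j k l h1 h2 h3 h4 := (h.q2 i j k l h1 h2 h3 h4).map f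
  q3 i j k l h1 h2 h3 h4 := by simpa using (h.q3 i j k l h1 h2 h3 h4).map f

open Classical in
/-- the family with values in a subgroup -/
noncomputable def sub {G : Type*} [Group G] (K : Subgroup G) (b : ℕ → ℕ → G) (i j : ℕ) : K :=
  if h : b i j ∈ K then ⟨b i j, h⟩ else 1

theorem sub_eq {G : Type*} [Group G] {K : Subgroup G} {b : ℕ → ℕ → G} {i j : ℕ}
    (h : b i j ∈ K) : (sub K b i j : G) = b i j := by
  rw [sub, dif_pos h]

theorem sub_pbn {G : Type*} [Group G] {K : Subgroup G} {b : ℕ → ℕ → G} {n : ℕ} (h : PBN n b)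
    (hK : ∀ i j, i < j → j < n → b i j ∈ K) : PBN n (sub K b) := by
  have e : ∀ i j, i < j → j < n → (sub K b i j : G) = b i j := fun i j h1 h2 =>
    sub_eq (hK i j h1 h2)
  have hco : ∀ x y : K, Commute (x : G) (y : G) → Commute x y := fun x y hc => Subtype.ext hc.eq
  constructor
  · intro i j k h1 h2 h3
    apply hco
    rw [K.coe_mul, K.coe_mul, e i j h1 (by omega), e i k (by omega) h3, e j k h2 h3]
    exact h.t1 i j k h1 h2 h3
  · intro i j k h1 h2 h3
    apply hco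
    rw [K.coe_mul, K.coe_mul, e i j h1 (by omega), e i k (by omega) h3, e j k h2 h3]
    exact h.t2 i j k h1 h2 h3
  · intro i j k l h1 h2 h3 h4
    apply hco
    rw [e i j h1 (by omega), e k l h3 h4]
    exact h.q1 i j k l h1 h2 h3 h4
  · intro i j k l h1 h2 h3 h4
    apply hco
    rw [e i l (by omega) h4, e j k h2 (by omega)]
    exact h.q2 i j k l h1 h2 h3 h4
  · intro i j k l h1 h2 h3 h4
    apply hco
    rw [K.coe_mul, K.coe_mul, K.coe_inv, e k l h3 h4, e i k (by omega) (by omega),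
      e j l (by omega) h4]
    exact h.q3 i j k l h1 h2 h3 h4

variable {n m : ℕ} {H : Subgroup (V ≃ₗ[ℂ] V)} {N : Set (V ≃ₗ[ℂ] V)} {T : ℕ → Bool}
  {b : ℕ → ℕ → (V ≃ₗ[ℂ] V)}

/-- Step D: the dimension of an eigenspace which contains a weight space. -/
theorem Sit.dim [FiniteDimensional ℂ V] (hS : ThmS.{u}) (h : Sit n m H N T b) (hm : n = m + 2)
    (h5 : 3 ≤ m) (hN : ∀ g ∈ H, ∀ z ∈ N, g⁻¹ * z * g ∈ N) (hN' : ∀ g ∈ H, ∀ z ∈ N, g * z * g⁻¹ ∈ N)
    (htop : sSup (Wt N) = ⊤) {U : Submodule ℂ V} (hU : U ∈ Wt N) {c : ℂ}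
    (hc : ∀ v ∈ U, b m (m + 1) v = c • v) :
    m ≤ finrank ℂ (End.eigenspace (b m (m + 1)).toLinearMap c) + 2 := by
  obtain ⟨Y, hYd⟩ : ∃ Y, Y = End.eigenspace (b m (m + 1)).toLinearMap c := ⟨_, rfl⟩
  rw [← hYd]
  have hmem : ∀ v, v ∈ Y ↔ b m (m + 1) v = c • v := fun v => by
    rw [hYd, End.mem_eigenspace_iff]
    rfl
  have hUY : U ≤ Y := fun v hv => (hmem v).mpr (hc v hv)
  have hY : ∀ f : V ≃ₗ[ℂ] V, Commute f (b m (m + 1)) → ∀ v ∈ Y, f v ∈ Y := by
    intro f hf v hv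
    rw [hmem] at hv ⊢
    have : b m (m + 1) (f v) = f (b m (m + 1) v) := (LinearEquiv.congr_fun hf.eq v).symm
    rw [this, hv, map_smul]
  have hnt : Nontrivial Y := Submodule.nontrivial_iff_ne_bot.mpr fun h0 => by
    apply hU.1
    rw [eq_bot_iff, ← h0]
    exact hUY
  let K : Subgroup (V ≃ₗ[ℂ] V) := Subgroup.centralizer ({b m (m + 1)} : Set (V ≃ₗ[ℂ] V))
  have hK : ∀ i j, i < j → j < m → b i j ∈ K := by
    intro i j hij hj
    rw [Subgroup.mem_centralizer_iff]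
    intro t ht
    rw [Set.mem_singleton_iff.mp ht]
    exact (h.pbn.q1 i j m (m + 1) hij hj (by omega) (by omega)).eq.symm
  have hpm : PBN m b := h.pbn.mono (by omega)
  let bY : ℕ → ℕ → (Y ≃ₗ[ℂ] Y) := fun i j => rsH (b m (m + 1)) Y hY (sub K b i j)
  have hbY : PBN m bY := pbn_map (sub_pbn hpm hK) (rsH (b m (m + 1)) Y hY)
  have hval : ∀ i j, i < j → j < m → ∀ v : Y, (bY i j v : V) = b i j v := by
    intro i j hij hj v
    show (rsH (b m (m + 1)) Y hY (sub K b i j) v : V) = _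
    rw [rsH_apply, sub_eq (hK i j hij hj)]
  have hncY : ∀ i j k, i < j → j < k → k < m → ¬ Commute (bY i j) (bY j k) := by
    intro i j k hij hjk hk hcom
    obtain ⟨b', ⟨T', h'⟩, e1, e2, -⟩ := move3 (n := m)
      (fun b => ∃ T, Sit n m H N T b) (fun b ⟨T, h⟩ => h.pbn.mono (by omega))
      (fun b ⟨T, h⟩ p hp => ⟨_, h.exch (by omega) hN hp⟩) (le_refl m) _ i j k rfl hij hjk hk b
      ⟨T, h⟩
    apply h'.spread (by omega) h5 hN hN' htop hU
    intro v hv
    rw [e1, e2]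
    have hv' := LinearEquiv.congr_fun hcom.eq ⟨v, hUY hv⟩
    have hv2 := congrArg Subtype.val hv'
    have a1 : ((bY i j * bY j k) ⟨v, hUY hv⟩ : V) = b i j (b j k v) := by
      show (bY i j (bY j k ⟨v, hUY hv⟩) : V) = _
      rw [hval i j hij (by omega), hval j k hjk hk]
    have a2 : ((bY j k * bY i j) ⟨v, hUY hv⟩ : V) = b j k (b i j v) := by
      show (bY j k (bY i j ⟨v, hUY hv⟩) : V) = _
      rw [hval j k hjk hk, hval i j hij (by omega)]
    rw [a1, a2] at hv2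
    exact hv2
  exact hS m Y (fz m bY) (fz_pb hbY) fun i j k hij hik hjk => fz_nc hbY hncY hij hik hjk

/-- **No splitting.** -/
theorem Sit.false [FiniteDimensional ℂ V] [Nontrivial V] (hS : ThmS.{u}) (h : Sit n m H N T b)
    (hm : n = m + 2) (h7 : finrank ℂ V + 8 < 2 * n) (hr : finrank ℂ V ≤ m)
    (hN : ∀ g ∈ H, ∀ z ∈ N, g⁻¹ * z * g ∈ N) (hN' : ∀ g ∈ H, ∀ z ∈ N, g * z * g⁻¹ ∈ N)
    (hlast : b m (m + 1) ∈ N) : False := by
  have hpos : 0 < finrank ℂ V := finrank_pos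
  have hcomm : ∀ z ∈ N, ∀ z' ∈ N, Commute z z' := fun z hz z' hz' =>
    h.comm (by omega) (by omega) hr hN hz hz'
  have htop := Wt.top (H := (H : Set (V ≃ₗ[ℂ] V))) (h.irrH (by omega)) hN hN' hcomm
  -- two different scalars
  obtain ⟨U1, hU1, c1, hc1, U2, hU2, c2, hc2, hne⟩ : ∃ U1 ∈ Wt N, ∃ c1 : ℂ,
      (∀ v ∈ U1, b m (m + 1) v = c1 • v) ∧ ∃ U2 ∈ Wt N, ∃ c2 : ℂ,
      (∀ v ∈ U2, b m (m + 1) v = c2 • v) ∧ c1 ≠ c2 := by
    by_contra hcon
    push Not at hcon
    obtain ⟨U1, hU1⟩ : (Wt N).Nonempty := by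
      rw [Set.nonempty_iff_ne_empty]
      intro h0
      rw [h0, sSup_empty] at htop
      exact bot_ne_top htop
    obtain ⟨c1, hc1⟩ := Wt.scalar hU1 hlast
    apply h.nc (m - 1) m (m + 1) (by omega) (by omega) (by omega)
    have hsc : ∀ v, b m (m + 1) v = c1 • v := by
      have : sSup (Wt N) ≤ End.eigenspace (b m (m + 1)).toLinearMap c1 := by
        refine sSup_le fun U hU x hx => ?_
        obtain ⟨c, hc⟩ := Wt.scalar hU hlast
        rw [End.mem_eigenspace_iff]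
        show b m (m + 1) x = c1 • x
        rw [hc x hx, hcon U1 hU1 c1 hc1 U hU c hc]
      intro v
      have hv : v ∈ End.eigenspace (b m (m + 1)).toLinearMap c1 := by
        apply this
        rw [htop]
        exact Submodule.mem_top
      exact End.mem_eigenspace_iff.mp hv
    exact (Pool.Agent.PB3.cen_of_scalar hsc _).symm
  have d1 := h.dim hS hm (by omega) hN hN' htop hU1 hc1
  have d2 := h.dim hS hm (by omega) hN hN' htop hU2 hc2
  have hdis : Disjoint (End.eigenspace (b m (m + 1)).toLinearMap c1)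
      (End.eigenspace (b m (m + 1)).toLinearMap c2) := by
    rw [Submodule.disjoint_def]
    intro x hx1 hx2
    rw [End.mem_eigenspace_iff] at hx1 hx2
    have : (c1 - c2) • x = 0 := by rw [sub_smul, ← hx1, ← hx2, sub_self]
    exact (smul_eq_zero.mp this).resolve_left (sub_ne_zero.mpr hne)
  have d3 := Submodule.finrank_sup_add_finrank_inf_eq
    (End.eigenspace (b m (m + 1)).toLinearMap c1) (End.eigenspace (b m (m + 1)).toLinearMap c2)
  rw [disjoint_iff.mp hdis, finrank_bot, add_zero] at d3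
  have d4 := Submodule.finrank_le (End.eigenspace (b m (m + 1)).toLinearMap c1 ⊔
    End.eigenspace (b m (m + 1)).toLinearMap c2)
  omega

end Pool.Agent.K14
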