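import Pool.Agent.K14.Chl

/-! The chain bound for operators which commute with a noncommutative set which is normalised by an
irreducible group. -/

set_option autoImplicit false

namespace Pool.Agent.K14

open Module

variable {V : Type*} [AddCommGroup V] [Module ℂ V]

/-- stable under the set -/
def Inv (N : Set (V ≃ₗ[ℂ] V)) (W : Submodule ℂ V) : Prop := ∀ n ∈ N, ∀ v ∈ W, n v ∈ W

theorem Inv.map {H N : Set (V ≃ₗ[ℂ] V)} (hN : ∀ h ∈ H, ∀ n ∈ N, h⁻¹ * n * h ∈ N)
    {h : V ≃ₗ[ℂ] V} (hh : h ∈ H) {W : Submodule ℂ V} (hW : Inv N W) :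
    Inv N (W.map h.toLinearMap) := by
  rintro n hn _ ⟨v, hv, rfl⟩
  refine ⟨(h⁻¹ * n * h) v, hW _ (hN h hh n hn) v hv, ?_⟩
  have e : h * (h⁻¹ * n * h) = n * h := by group
  exact LinearEquiv.congr_fun e v

/-- the sum of the smallest stable subspaces is everything -/
theorem exists_small [FiniteDimensional ℂ V] [Nontrivial V] {H N : Set (V ≃ₗ[ℂ] V)}
    (hirr : ∀ W : Submodule ℂ V, (∀ f ∈ H, ∀ x ∈ W, f x ∈ W) → W = ⊥ ∨ W = ⊤)
    (hN : ∀ h ∈ H, ∀ n ∈ N, h⁻¹ * n * h ∈ N) :
    ∃ d : ℕ, 0 < d ∧ (∀ U : Submodule ℂ V, U ≠ ⊥ → Inv N U → d ≤ finrank ℂ U) ∧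
      sSup {U : Submodule ℂ V | Inv N U ∧ finrank ℂ U = d} = ⊤ := by
  classical
  have hex : ∃ d : ℕ, ∃ W : Submodule ℂ V, W ≠ ⊥ ∧ Inv N W ∧ finrank ℂ W = d :=
    ⟨_, ⊤, top_ne_bot, fun n _ v _ => Submodule.mem_top, rfl⟩
  obtain ⟨W1, hW1, hI1, hd1⟩ := Nat.find_spec hex
  have hmin : ∀ U : Submodule ℂ V, U ≠ ⊥ → Inv N U → Nat.find hex ≤ finrank ℂ U :=
    fun U h1 h2 => Nat.find_min' hex ⟨U, h1, h2, rfl⟩
  obtain ⟨d, hd⟩ : ∃ d, d = Nat.find hex := ⟨_, rfl⟩
  rw [← hd] at hd1 hmin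
  refine ⟨d, ?_, hmin, ?_⟩
  · rw [← hd1]
    exact Nat.pos_of_ne_zero fun h0 => hW1 (Submodule.finrank_eq_zero.1 h0)
  · set F : Set (Submodule ℂ V) := {U | Inv N U ∧ finrank ℂ U = d} with hF
    rcases hirr (sSup F) (by
      intro h hh
      have : sSup F ≤ (sSup F).comap h.toLinearMap := by
        refine sSup_le fun U hU x hx => ?_
        have hU' : U.map h.toLinearMap ∈ F := by
          refine ⟨hU.1.map hN hh, ?_⟩
          rw [← hU.2]
          exact LinearEquiv.finrank_map_eq h U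
        exact (le_sSup hU') ⟨x, hx, rfl⟩
      exact fun x hx => this hx) with h1 | h1
    · exfalso
      apply hW1
      rw [eq_bot_iff, ← h1]
      exact le_sSup (show W1 ∈ F from ⟨hI1, hd1⟩)
    · exact h1

/-- if the smallest stable subspaces are lines then the set is commutative -/
theorem comm_of_lines {N : Set (V ≃ₗ[ℂ] V)}
    (hF : sSup {U : Submodule ℂ V | Inv N U ∧ finrank ℂ U = 1} = ⊤) {n n' : V ≃ₗ[ℂ] V} (hn : n ∈ N)
    (hn' : n' ∈ N) : Commute n n' := by
  have : sSup {U : Submodule ℂ V | Inv N U ∧ finrank ℂ U = 1} ≤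
      LinearMap.ker ((n * n' : V ≃ₗ[ℂ] V).toLinearMap - (n' * n : V ≃ₗ[ℂ] V).toLinearMap) := by
    refine sSup_le fun U hU x hx => ?_
    have hfr := hU.2
    by_cases hx0 : x = 0
    · rw [hx0]; exact Submodule.zero_mem _
    have hsc : ∀ y ∈ U, ∃ c : ℂ, y = c • x := by
      intro y hy
      obtain ⟨c, hc⟩ := (finrank_eq_one_iff_of_nonzero' (⟨x, hx⟩ : U)
        (fun h' => hx0 (congrArg Subtype.val h'))).1 hfr ⟨y, hy⟩
      exact ⟨c, (congrArg Subtype.val hc).symm⟩
    obtain ⟨c, hc⟩ := hsc _ (hU.1 n hn x hx)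
    obtain ⟨c', hc'⟩ := hsc _ (hU.1 n' hn' x hx)
    rw [LinearMap.mem_ker, LinearMap.sub_apply, sub_eq_zero]
    show n (n' x) = n' (n x)
    rw [hc, hc', map_smul, map_smul, hc, hc', smul_comm]
  rw [hF, top_le_iff, LinearMap.ker_eq_top, sub_eq_zero] at this
  exact LinearEquiv.toLinearMap_injective this

theorem chain_half [FiniteDimensional ℂ V] [Nontrivial V] {ι : Type*} [Fintype ι] [LinearOrder ι]
    {H N : Set (V ≃ₗ[ℂ] V)}
    (hirr : ∀ W : Submodule ℂ V, (∀ f ∈ H, ∀ x ∈ W, f x ∈ W) → W = ⊥ ∨ W = ⊤)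
    (hN : ∀ h ∈ H, ∀ n ∈ N, h⁻¹ * n * h ∈ N) {n n' : V ≃ₗ[ℂ] V} (hn : n ∈ N) (hn' : n' ∈ N)
    (hnc : ¬ Commute n n')
    (x y : ι → V →ₗ[ℂ] V) (h0 : ∀ i, x i ∘ₗ y i ≠ y i ∘ₗ x i)
    (h1 : ∀ j i, j < i → x j ∘ₗ y i = y i ∘ₗ x j)
    (hx : ∀ i, ∀ n ∈ N, n.toLinearMap ∘ₗ x i = x i ∘ₗ n.toLinearMap) :
    Fintype.card ι + 2 ≤ finrank ℂ V := by
  classical
  obtain ⟨d, hd0, hmin, htop⟩ := exists_small hirr hN
  have hd2 : 2 ≤ d := by
    by_contra hcon
    have hd1 : d = 1 := by omega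
    subst hd1
    exact hnc (comm_of_lines htop hn hn')
  let S : Set (Module.End ℂ V) := {f | ∃ n ∈ N, f = n.toLinearMap}
  let R : Subalgebra ℂ (Module.End ℂ V) := Algebra.adjoin ℂ S
  have hR : ∀ (U : Submodule ℂ V), Inv N U → ∀ r : R, ∀ v ∈ U, r.1 v ∈ U := by
    intro U hU r
    obtain ⟨r, hr⟩ := r
    show ∀ v ∈ U, r v ∈ U
    induction hr using Algebra.adjoin_induction with
    | mem f hf =>
      obtain ⟨n, hn, rfl⟩ := hf
      exact hU n hn
    | algebraMap c => exact fun v hv => U.smul_mem c hv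
    | add f g _ _ hf hg => exact fun v hv => U.add_mem (hf v hv) (hg v hv)
    | mul f g _ _ hf hg => exact fun v hv => hf _ (hg v hv)
  let toR : ∀ U : Submodule ℂ V, Inv N U → Submodule R V := fun U hU =>
    { carrier := U
      zero_mem' := U.zero_mem
      add_mem' := U.add_mem
      smul_mem' := fun r v hv => hR U hU r v hv }
  have hinv : ∀ W : Submodule R V, Inv N (W.restrictScalars ℂ) := by
    intro W n hn v hv
    exact W.smul_mem (⟨n.toLinearMap, Algebra.subset_adjoin ⟨n, hn, rfl⟩⟩ : R) hv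
  have hfr : ∀ W : Submodule R V, W ≠ ⊥ → d ≤ finrank ℂ (W.restrictScalars ℂ) := by
    intro W hW
    apply hmin _ _ (hinv W)
    intro h
    apply hW
    rw [eq_bot_iff]
    intro v hv
    have : v ∈ W.restrictScalars ℂ := hv
    rw [h, Submodule.mem_bot] at this
    exact this
  have hsimple : ∀ U : Submodule ℂ V, ∀ hU : Inv N U, finrank ℂ U = d →
      IsSimpleModule R (toR U hU) := by
    intro U hU hUd
    rw [isSimpleModule_iff_isAtom]
    refine ⟨?_, fun b hb => ?_⟩
    · intro h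
      have : U = ⊥ := by
        rw [eq_bot_iff]
        intro v hv
        have h2 : v ∈ toR U hU := hv
        rw [h, Submodule.mem_bot] at h2
        exact h2
      rw [this, finrank_bot] at hUd
      omega
    · by_contra hb0
      have h1 := hfr b hb0
      have h2 : b.restrictScalars ℂ ≤ U := fun v hv => hb.le hv
      have h3 : b.restrictScalars ℂ = U := Submodule.eq_of_le_of_finrank_le h2 (by rw [hUd]; exact h1)
      apply hb.ne
      ext v
      have : v ∈ b.restrictScalars ℂ ↔ v ∈ U := by rw [h3]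
      exact this
  let s : Set (Submodule R V) := {W | ∃ U, ∃ hU : Inv N U, finrank ℂ U = d ∧ W = toR U hU}
  have hsS : ∀ W ∈ s, IsSimpleModule R W := by
    rintro W ⟨U, hU, hUd, rfl⟩
    exact hsimple U hU hUd
  have hstop : sSup s = ⊤ := by
    have h2 : sSup {U : Submodule ℂ V | Inv N U ∧ finrank ℂ U = d} ≤ (sSup s).restrictScalars ℂ := by
      refine sSup_le fun U hU v hv => ?_
      have h3 : toR U hU.1 ≤ sSup s := le_sSup ⟨U, hU.1, hU.2, rfl⟩
      exact h3 hv
    rw [htop, top_le_iff] at h2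
    rw [eq_top_iff]
    intro v _
    have : v ∈ (sSup s).restrictScalars ℂ := by rw [h2]; exact Submodule.mem_top
    exact this
  have hss : IsSemisimpleModule R V := by
    apply IsSemisimpleModule.of_sSup_simples_eq_top
    rw [eq_top_iff, ← hstop]
    exact sSup_le_sSup fun W hW => hsS W hW
  have hdim : ∀ S : Submodule R V, IsSimpleModule R S → 2 ≤ finrank ℂ S := by
    intro S hS
    have : ∀ m : s, IsSimpleModule R m := fun m => hsS m.1 m.2
    obtain ⟨W, ⟨U, hU, hUd, rfl⟩, ⟨e⟩⟩ := Submodule.linearEquiv_of_sSup_eq_top (R := R) S s hstop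
    have h2 : finrank ℂ S = finrank ℂ (toR U hU) := (e.restrictScalars ℂ).finrank_eq
    have h3 : finrank ℂ (toR U hU) = finrank ℂ U := rfl
    omega
  obtain ⟨L, Q, hL, hQ, hLs, hQs, hgen, hcogen⟩ := exists_LQ (R := R) hdim
  -- the operators are linear over the algebra
  have hxR : ∀ i, ∀ r : R, ∀ v, x i (r.1 v) = r.1 (x i v) := by
    intro i r
    obtain ⟨r, hr⟩ := r
    show ∀ v, x i (r v) = r (x i v)
    induction hr using Algebra.adjoin_induction with
    | mem f hf =>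
      obtain ⟨n, hn, rfl⟩ := hf
      exact fun v => (LinearMap.congr_fun (hx i n hn) v).symm
    | algebraMap c => exact fun v => (x i).map_smul c v
    | add f g _ _ hf hg =>
      intro v
      rw [LinearMap.add_apply, map_add, hf, hg, LinearMap.add_apply]
    | mul f g _ _ hf hg =>
      intro v
      rw [Module.End.mul_apply, hf, hg, Module.End.mul_apply]
  let T : ι → (V →ₗ[R] V) := fun i =>
    { toFun := x i
      map_add' := map_add (x i)
      map_smul' := fun r v => hxR i r v }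
  have key := chain_LQ x y h0 h1 L Q (fun i => hLs (T i)) (fun i => hQs (T i))
    (by
      intro W hW hLW
      have hWN : Inv N W := fun n hn => hW n.toLinearMap fun i => hx i n hn
      have := hgen (toR W hWN) hLW
      rw [eq_top_iff]
      intro v _
      have h3 : v ∈ toR W hWN := by rw [this]; exact Submodule.mem_top
      exact h3)
    (by
      intro W hW hWQ
      have hWN : Inv N W := fun n hn => hW n.toLinearMap fun i => hx i n hn
      have := hcogen (toR W hWN) hWQ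
      rw [eq_bot_iff]
      intro v hv
      have h3 : v ∈ toR W hWN := hv
      rw [this, Submodule.mem_bot] at h3
      rw [h3]
      exact Submodule.zero_mem _)
  omega

end Pool.Agent.K14
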