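import Pool.Agent.K14.Sit
import Pool.Agent.PB3.Stab

/-! No splitting: the steps. -/

set_option autoImplicit false

namespace Pool.Agent.K14

open Module
open Pool.Agent.Conf14 (PB g_comm)
open Pool.Agent.Frm14

variable {V : Type*} [AddCommGroup V] [Module ℂ V] {n m : ℕ} {H : Subgroup (V ≃ₗ[ℂ] V)}
  {N : Set (V ≃ₗ[ℂ] V)} {T : ℕ → Bool} {b : ℕ → ℕ → (V ≃ₗ[ℂ] V)}

/-- the whole group acts irreducibly -/
theorem Sit.irrH (h : Sit n m H N T b) (hn : 0 < n) (W : Submodule ℂ V)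
    (hW : ∀ f ∈ (H : Set (V ≃ₗ[ℂ] V)), ∀ x ∈ W, f x ∈ W) : W = ⊥ ∨ W = ⊤ :=
  h.irr 0 hn W fun i j hij hj _ => hW _ (h.mem i j hij hj)

/-- a strand can be moved to the front -/
theorem Sit.front [FiniteDimensional ℂ V] (hmn : m ≤ n) (hN : ∀ g ∈ H, ∀ z ∈ N, g⁻¹ * z * g ∈ N) :
    ∀ (u : ℕ) (T : ℕ → Bool) (b : ℕ → ℕ → (V ≃ₗ[ℂ] V)), u < m → Sit n m H N T b →
      ∃ T' b', Sit n m H N T' b' ∧ T' 0 = T u ∧ (0 < u → T' 1 = T 0) := by
  intro u
  induction u with
  | zero => exact fun T b _ h => ⟨T, b, h, rfl, fun h0 => absurd h0 (lt_irrefl 0)⟩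
  | succ q ih =>
    intro T b hu h
    obtain ⟨T', b', h', e1, e2⟩ := ih _ _ (by omega) (h.exch hmn hN hu)
    have s1 : sl q q = q + 1 := by simp [sl]
    rcases Nat.eq_zero_or_pos q with h0 | h0
    · subst h0
      -- one exchange
      have s2 : sl 0 1 = 0 := by simp [sl]
      refine ⟨_, _, h.exch hmn hN hu, ?_, fun _ => ?_⟩
      · show T (sl 0 0) = _
        rw [s1]
      · show T (sl 0 1) = _
        rw [s2]
    · refine ⟨T', b', h', ?_, fun _ => ?_⟩
      · rw [e1]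
        show T (sl q q) = _
        rw [s1]
      · rw [e2 h0]
        show T (sl q 0) = _
        have s2 : sl q 0 = 0 := by
          unfold sl
          rw [if_neg (by omega), if_neg (by omega)]
        rw [s2]

/-- Step A: the set is commutative. -/
theorem Sit.comm [FiniteDimensional ℂ V] [Nontrivial V] (h : Sit n m H N T b) (hmn : m < n)
    (h2 : 2 ≤ m) (hr : finrank ℂ V ≤ m) (hN : ∀ g ∈ H, ∀ z ∈ N, g⁻¹ * z * g ∈ N)
    {z z' : V ≃ₗ[ℂ] V} (hz : z ∈ N) (hz' : z' ∈ N) : Commute z z' := by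
  by_contra hnc
  -- move a strand of the other kind to the front
  obtain ⟨u, hu, hTu⟩ : ∃ u, u < m ∧ T u ≠ T 0 := by
    obtain ⟨i, -, hi, -, -, h1, -⟩ := h.cnt (!T 0)
    exact ⟨i, hi, by rw [h1]; simp⟩
  have hu0 : 0 < u := by
    rcases Nat.eq_zero_or_pos u with h0 | h0
    · exact absurd (by rw [h0]) hTu
    · exact h0
  obtain ⟨T', b', h', e1, e2⟩ := Sit.front (by omega) hN u T b hu h
  have hT01 : T' 0 ≠ T' 1 := by rw [e1, e2 hu0]; exact hTu
  let x : Fin (m - 1) → (V ≃ₗ[ℂ] V) := fun i =>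
    if T' (i + 1) = T' 0 then b' 1 (i + 1) else b' 0 (i + 1)
  let y : Fin (m - 1) → (V ≃ₗ[ℂ] V) := fun i => b' (i + 1) (i + 1 + 1)
  have hlow : ∀ i : Fin (m - 1), ∃ c, c < (i : ℕ) + 1 ∧ x i = b' c (i + 1) ∧ T' c ≠ T' (i + 1) := by
    intro i
    by_cases hi : T' (i + 1) = T' 0
    · have hi0 : (i : ℕ) ≠ 0 := by
        intro h0
        rw [h0] at hi
        exact hT01 hi.symm
      refine ⟨1, by omega, if_pos hi, ?_⟩
      rw [hi]
      exact hT01.symm
    · exact ⟨0, by omega, if_neg hi, fun e => hi e.symm⟩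
  have key := chain_half (H := (H : Set (V ≃ₗ[ℂ] V))) (N := N) (ι := Fin (m - 1))
    (h.irrH (by omega)) hN hz hz' hnc (fun i => (x i).toLinearMap) (fun i => (y i).toLinearMap)
    (by
      intro i hc
      obtain ⟨c, hc1, hc2, -⟩ := hlow i
      have hi := i.isLt
      apply h'.nc c (i + 1) (i + 1 + 1) hc1 (by omega) (by omega)
      rw [← hc2]
      exact Pool.Agent.PB3.commute_of_comp_eq hc)
    (by
      intro j i hji
      obtain ⟨c, hc1, hc2, -⟩ := hlow j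
      have hi := i.isLt
      have hji' : (j : ℕ) < i := hji
      apply Pool.Agent.PB3.comp_eq_of_commute
      rw [hc2]
      exact h'.pbn.q1 c (j + 1) (i + 1) (i + 1 + 1) hc1 (by omega) (by omega) (by omega))
    (by
      intro i w hw
      obtain ⟨c, hc1, hc2, hc3⟩ := hlow i
      have hi := i.isLt
      apply Pool.Agent.PB3.comp_eq_of_commute
      rw [hc2]
      exact (h'.tr c (i + 1) hc1 (by omega) hc3 w hw).symm)
  rw [Fintype.card_fin] at key
  omega

/-- Step C: the first triple does not commute on any weight space. -/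
theorem Sit.spread [FiniteDimensional ℂ V] (h : Sit n m H N T b) (hmn : m ≤ n) (h5 : 3 ≤ m)
    (hN : ∀ g ∈ H, ∀ z ∈ N, g⁻¹ * z * g ∈ N) (hN' : ∀ g ∈ H, ∀ z ∈ N, g * z * g⁻¹ ∈ N)
    (htop : sSup (Wt N) = ⊤) {U : Submodule ℂ V} (hU : U ∈ Wt N) :
    ¬ ∀ v ∈ U, b 0 1 (b 1 2 v) = b 1 2 (b 0 1 v) := by
  intro hZ
  -- the strand
  obtain ⟨s, hs3, hsm, hs⟩ : ∃ s, 3 ≤ s ∧ s < m ∧ ((T s ≠ T 0 ∧ T s ≠ T 1) ∨
      (T s ≠ T 0 ∧ T s ≠ T 2) ∨ (T s ≠ T 1 ∧ T s ≠ T 2)) := by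
    have key : ∀ β : Bool, (∃ i j, i < 3 ∧ j < 3 ∧ i ≠ j ∧ T i ≠ β ∧ T j ≠ β) →
        ∃ s, 3 ≤ s ∧ s < m ∧ T s = β := by
      rintro β ⟨i, j, hi, hj, hij, h1, h2⟩
      obtain ⟨k, l, hk, hl, hkl, h3, h4⟩ := h.cnt β
      by_cases hk3 : 3 ≤ k
      · exact ⟨k, hk3, hk, h3⟩
      by_cases hl3 : 3 ≤ l
      · exact ⟨l, hl3, hl, h4⟩
      exfalso
      have c1 : k ≠ i := fun e => h1 (by rw [← e]; exact h3)
      have c2 : k ≠ j := fun e => h2 (by rw [← e]; exact h3)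
      have c3 : l ≠ i := fun e => h1 (by rw [← e]; exact h4)
      have c4 : l ≠ j := fun e => h2 (by rw [← e]; exact h4)
      omega
    have hb : ∀ β γ : Bool, β ≠ γ → ∀ δ, δ = γ → δ ≠ β := by
      intro β γ hβ δ hδ
      rw [hδ]
      exact hβ.symm
    by_cases h01 : T 0 = T 1
    · obtain ⟨s, h1, h2, h3⟩ := key (!T 0) ⟨0, 1, by omega, by omega, by omega, by simp, by
        rw [h01]; simp⟩
      exact ⟨s, h1, h2, Or.inl ⟨by rw [h3]; simp, by rw [h3, h01]; simp⟩⟩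
    by_cases h02 : T 0 = T 2
    · obtain ⟨s, h1, h2, h3⟩ := key (!T 0) ⟨0, 2, by omega, by omega, by omega, by simp, by
        rw [h02]; simp⟩
      exact ⟨s, h1, h2, Or.inr (Or.inl ⟨by rw [h3]; simp, by rw [h3, h02]; simp⟩)⟩
    have h12 : T 1 = T 2 := by
      rcases h0' : T 0 <;> rcases h1' : T 1 <;> rcases h2' : T 2 <;> simp_all
    obtain ⟨s, h1, h2, h3⟩ := key (!T 1) ⟨1, 2, by omega, by omega, by omega, by simp, by
      rw [h12]; simp⟩
    exact ⟨s, h1, h2, Or.inr (Or.inr ⟨by rw [h3]; simp, by rw [h3, h12]; simp⟩)⟩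
  have hsn : s < n := by omega
  let Ω : Set (Submodule ℂ V) := {U | U ∈ Wt N ∧ ∀ v ∈ U, b 0 1 (b 1 2 v) = b 1 2 (b 0 1 v)}
  -- operators commuting with the triple
  have hmapΩ : ∀ c : V ≃ₗ[ℂ] V, c ∈ H → Commute c (b 0 1) → Commute c (b 1 2) → ∀ U ∈ Ω,
      U.map c.toLinearMap ∈ Ω := by
    intro c hcH h1 h2 U hU
    refine ⟨Wt.map hU.1 (hN c hcH) (hN' c hcH), ?_⟩
    rintro _ ⟨v, hv, rfl⟩
    have a1 : ∀ v, b 0 1 (c v) = c (b 0 1 v) := fun v => (LinearEquiv.congr_fun h1.eq v).symm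
    have a2 : ∀ v, b 1 2 (c v) = c (b 1 2 v) := fun v => (LinearEquiv.congr_fun h2.eq v).symm
    show b 0 1 (b 1 2 (c v)) = b 1 2 (b 0 1 (c v))
    rw [a2, a1, a1, a2, hU.2 v hv]
  have hfix : ∀ t, t < 3 → T s ≠ T t → ∀ U ∈ Wt N, U.map (b t s).toLinearMap = U := by
    intro t ht hT U hU
    exact Wt.fix hU (h.tr t s (by omega) hsm hT.symm)
  -- the product
  have hg : Commute (b 0 s * b 1 s * b 2 s) (b 0 1) ∧ Commute (b 0 s * b 1 s * b 2 s) (b 1 2) := by
    have e : cr b 0 3 s = b 0 s * b 1 s * b 2 s := by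
      show 1 * b (0 + 0) s * b (0 + 1) s * b (0 + 2) s = _
      rw [one_mul]
    rw [← e]
    exact ⟨(h.pbn.comm_col (by omega) (by omega) hs3 hsn).symm,
      (h.pbn.comm_col (by omega) (by omega) hs3 hsn).symm⟩
  have hgH : b 0 s * b 1 s * b 2 s ∈ H :=
    H.mul_mem (H.mul_mem (h.mem 0 s (by omega) hsn) (h.mem 1 s (by omega) hsn))
      (h.mem 2 s (by omega) hsn)
  have hmul : ∀ (f g : V ≃ₗ[ℂ] V) (U : Submodule ℂ V),
      U.map (f * g).toLinearMap = (U.map g.toLinearMap).map f.toLinearMap := by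
    intro f g U
    rw [← Submodule.map_comp]
    rfl
  have hWt : ∀ t, t < 3 → ∀ U ∈ Wt N, U.map (b t s).toLinearMap ∈ Wt N := by
    intro t ht U hU
    have hm := h.mem t s (by omega) hsn
    exact Wt.map hU (hN _ hm) (hN' _ hm)
  have hex : ∀ t, t < 3 → ∀ U ∈ Ω, U.map (b t s).toLinearMap ∈ Ω := by
    intro t ht U hU
    by_cases hTt : T s ≠ T t
    · rw [hfix t ht hTt U hU.1]
      exact hU
    · push Not at hTt
      have hG := hmapΩ _ hgH hg.1 hg.2 U hU
      rw [hmul, hmul] at hG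
      have ht3 : t = 0 ∨ t = 1 ∨ t = 2 := by omega
      rcases ht3 with rfl | rfl | rfl
      · have c1 : T s ≠ T 1 ∧ T s ≠ T 2 := by
          rcases hs with hs | hs | hs
          · exact absurd hTt hs.1
          · exact absurd hTt hs.1
          · exact hs
        rw [hfix 2 (by omega) c1.2 U hU.1, hfix 1 (by omega) c1.1 U hU.1] at hG
        exact hG
      · have c1 : T s ≠ T 0 ∧ T s ≠ T 2 := by
          rcases hs with hs | hs | hs
          · exact absurd hTt hs.2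
          · exact hs
          · exact absurd hTt hs.1
        rw [hfix 2 (by omega) c1.2 U hU.1, hfix 0 (by omega) c1.1 _ (hWt 1 (by omega) U hU.1)] at hG
        exact hG
      · have c1 : T s ≠ T 0 ∧ T s ≠ T 1 := by
          rcases hs with hs | hs | hs
          · exact hs
          · exact absurd hTt hs.2
          · exact absurd hTt hs.2
        rw [hfix 1 (by omega) c1.2 _ (hWt 2 (by omega) U hU.1),
          hfix 0 (by omega) c1.1 _ (hWt 2 (by omega) U hU.1)] at hG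
        exact hG
  have hall : ∀ i j, i < j → j < n → (i = s ∨ j = s) → ∀ U ∈ Ω,
      U.map (b i j).toLinearMap ∈ Ω := by
    intro i j hij hj hs' U hU
    rcases hs' with rfl | rfl
    · apply hmapΩ _ (h.mem _ _ hij hj) _ _ U hU
      · exact (h.pbn.q1 0 1 i j (by omega) (by omega) hij hj).symm
      · exact (h.pbn.q1 1 2 i j (by omega) (by omega) hij hj).symm
    · by_cases hi3 : i < 3
      · exact hex i hi3 U hU
      · apply hmapΩ _ (h.mem _ _ hij hj) _ _ U hU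
        · exact (h.pbn.q1 0 1 i j (by omega) (by omega) hij hj).symm
        · exact (h.pbn.q1 1 2 i j (by omega) (by omega) hij hj).symm
  rcases h.irr s hsn (sSup Ω) (by
    intro i j hij hj hs'
    have : sSup Ω ≤ (sSup Ω).comap (b i j).toLinearMap := by
      refine sSup_le fun U hU x hx => ?_
      exact (le_sSup (hall i j hij hj hs' U hU)) ⟨x, hx, rfl⟩
    exact fun v hv => this hv) with h1 | h1
  · apply hU.1
    rw [eq_bot_iff, ← h1]
    exact le_sSup ⟨hU, hZ⟩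
  · apply h.nc 0 1 2 (by omega) (by omega) (by omega)
    have : sSup Ω ≤ LinearMap.ker ((b 0 1 * b 1 2 : V ≃ₗ[ℂ] V).toLinearMap -
        (b 1 2 * b 0 1 : V ≃ₗ[ℂ] V).toLinearMap) := by
      refine sSup_le fun U hU x hx => ?_
      rw [LinearMap.mem_ker, LinearMap.sub_apply, sub_eq_zero]
      exact hU.2 x hx
    rw [h1, top_le_iff, LinearMap.ker_eq_top, sub_eq_zero] at this
    exact LinearEquiv.toLinearMap_injective this

end Pool.Agent.K14
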