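import Pool.Agent.K14.Fin

/-! Moving a pair of strands to the end. -/

set_option autoImplicit false

namespace Pool.Agent.K14

open Module
open Pool.Agent.Frm14

universe u

variable {V : Type u} [AddCommGroup V] [Module ℂ V]

/-- irreducible strands and no commuting triples -/
structure Bs (n : ℕ) (H : Subgroup (V ≃ₗ[ℂ] V)) (b : ℕ → ℕ → (V ≃ₗ[ℂ] V)) : Prop where
  pbn : PBN n b
  mem : ∀ i j, i < j → j < n → b i j ∈ H
  irr : ∀ s, s < n → ∀ W : Submodule ℂ V,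
    (∀ i j, i < j → j < n → (i = s ∨ j = s) → ∀ v ∈ W, b i j v ∈ W) → W = ⊥ ∨ W = ⊤
  nc : ∀ i j k, i < j → j < k → k < n → ¬ Commute (b i j) (b j k)

theorem Bs.exch [FiniteDimensional ℂ V] {n : ℕ} {H : Subgroup (V ≃ₗ[ℂ] V)}
    {b : ℕ → ℕ → (V ≃ₗ[ℂ] V)} (h : Bs n H b) (hn : 4 ≤ n) {p : ℕ} (hp : p + 1 < n) :
    Bs n H (sw b p) := by
  have h' : Sit n n H ∅ (fun i => decide (i % 2 = 0)) b := by
    refine ⟨h.pbn, h.mem, h.irr, h.nc, fun i j _ _ _ z hz => absurd hz (Set.notMem_empty z), ?_⟩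
    intro β
    cases β
    · exact ⟨1, 3, by omega, by omega, by omega, by decide, by decide⟩
    · exact ⟨0, 2, by omega, by omega, by omega, by decide, by decide⟩
  have h2 := h'.exch (le_refl n) (fun g _ z hz => absurd hz (Set.notMem_empty z)) hp
  exact ⟨h2.pbn, h2.mem, h2.irr, h2.nc⟩

/-- the pair is at the positions `p`, `p + 1` -/
structure PSit (n p : ℕ) (H : Subgroup (V ≃ₗ[ℂ] V)) (N : Set (V ≃ₗ[ℂ] V)) (T : ℕ → Bool)
    (b : ℕ → ℕ → (V ≃ₗ[ℂ] V)) : Prop where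
  bs : Bs n H b
  tr : ∀ i j, i < j → j < n → i ≠ p → i ≠ p + 1 → j ≠ p → j ≠ p + 1 → T i ≠ T j →
    ∀ z ∈ N, Commute (b i j) z
  cnt : ∀ β, ∃ i j, i < n ∧ j < n ∧ i ≠ j ∧ (i ≠ p ∧ i ≠ p + 1) ∧ (j ≠ p ∧ j ≠ p + 1) ∧
    T i = β ∧ T j = β
  pr : b p (p + 1) ∈ N

theorem PSit.step [FiniteDimensional ℂ V] {n p : ℕ} {H : Subgroup (V ≃ₗ[ℂ] V)}
    {N : Set (V ≃ₗ[ℂ] V)} {T : ℕ → Bool} {b : ℕ → ℕ → (V ≃ₗ[ℂ] V)} (h : PSit n p H N T b)
    (hn : 4 ≤ n) (hN' : ∀ g ∈ H, ∀ z ∈ N, g * z * g⁻¹ ∈ N) (hp : p + 2 < n) :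
    PSit n (p + 1) H N (fun i => if i = p then T (p + 2) else T i) (sw (sw b (p + 1)) p) := by
  have hb1 := h.bs.exch hn (p := p + 1) (by omega)
  have hb2 := hb1.exch hn (p := p) (by omega)
  -- the entries
  have e0 : ∀ i j, i ≠ p → i ≠ p + 1 → i ≠ p + 2 → j ≠ p → j ≠ p + 1 → j ≠ p + 2 →
      sw (sw b (p + 1)) p i j = b i j := by
    intro i j h1 h2 h3 h4 h5 h6
    rw [sw_o h4 h5 h1 h2, sw_o (by omega) (by omega) (by omega) (by omega)]
  have e1 : ∀ i, i < p → sw (sw b (p + 1)) p i p = b i (p + 2) := by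
    intro i hi
    rw [sw_j, sw_j]
  have e2 : ∀ j, p + 2 < j → sw (sw b (p + 1)) p p j = b (p + 2) j := by
    intro j hj
    rw [sw_i (by omega) (by omega), sw_i (by omega) (by omega)]
  have e3 : sw (sw b (p + 1)) p (p + 1) (p + 2) = (sw b (p + 1)) p (p + 1) *
      (b (p + 1) (p + 2) * b p (p + 1) * (b (p + 1) (p + 2))⁻¹) *
      ((sw b (p + 1)) p (p + 1))⁻¹ := by
    rw [sw_i1 (by omega) (by omega), sw_j1 (a := b) (p := p + 1) (i := p) (by omega)]
  refine ⟨hb2, ?_, ?_, ?_⟩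
  · intro i j hij hj h1 h2 h3 h4 hT z hz
    by_cases hip : i = p
    · subst hip
      rw [if_pos rfl, if_neg (show j ≠ i by omega)] at hT
      rw [e2 j (by omega)]
      exact h.tr (i + 2) j (by omega) hj (by omega) (by omega) (by omega) (by omega) hT z hz
    by_cases hjp : j = p
    · subst hjp
      rw [if_neg hip, if_pos rfl] at hT
      rw [e1 i hij]
      exact h.tr i (j + 2) (by omega) hp (by omega) (by omega) (by omega) (by omega) hT z hz
    rw [if_neg hip, if_neg hjp] at hT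
    rw [e0 i j hip h1 (by omega) hjp h3 (by omega)]
    exact h.tr i j hij hj hip h1 hjp h3 hT z hz
  · intro β
    obtain ⟨i, j, hi, hj, hij, hi2, hj2, h1, h2⟩ := h.cnt β
    refine ⟨if i = p + 2 then p else i, if j = p + 2 then p else j, ?_, ?_, ?_, ?_, ?_, ?_, ?_⟩
    · split_ifs <;> omega
    · split_ifs <;> omega
    · split_ifs <;> omega
    · split_ifs <;> omega
    · split_ifs <;> omega
    · by_cases h3 : i = p + 2
      · simp only [if_pos h3, if_true]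
        rw [← h3, h1]
      · simp only [if_neg h3]
        rw [if_neg hi2.1, h1]
    · by_cases h3 : j = p + 2
      · simp only [if_pos h3, if_true]
        rw [← h3, h2]
      · simp only [if_neg h3]
        rw [if_neg hj2.1, h2]
  · show sw (sw b (p + 1)) p (p + 1) (p + 2) ∈ N
    rw [e3]
    apply hN' _ (hb1.mem p (p + 1) (by omega) (by omega))
    exact hN' _ (h.bs.mem (p + 1) (p + 2) (by omega) hp) _ h.pr

/-- **No splitting**, the pair at any position. -/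
theorem PSit.false [FiniteDimensional ℂ V] [Nontrivial V] (hS : ThmS.{u}) {n : ℕ}
    {H : Subgroup (V ≃ₗ[ℂ] V)} {N : Set (V ≃ₗ[ℂ] V)} (hr : finrank ℂ V + 2 ≤ n)
    (h7 : finrank ℂ V + 8 < 2 * n)
    (hN : ∀ g ∈ H, ∀ z ∈ N, g⁻¹ * z * g ∈ N) (hN' : ∀ g ∈ H, ∀ z ∈ N, g * z * g⁻¹ ∈ N) :
    ∀ (d p : ℕ) (T : ℕ → Bool) (b : ℕ → ℕ → (V ≃ₗ[ℂ] V)), p + 2 + d = n → PSit n p H N T b →
      False := by
  intro d
  induction d with
  | zero =>
    intro p T b hd h
    have h5 : 5 ≤ n := by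
      have : 0 < finrank ℂ V := finrank_pos
      omega
    have hs : Sit n p H N T b := by
      refine ⟨h.bs.pbn, h.bs.mem, h.bs.irr, h.bs.nc, ?_, ?_⟩
      · intro i j hij hj hT z hz
        exact h.tr i j hij (by omega) (by omega) (by omega) (by omega) (by omega) hT z hz
      · intro β
        obtain ⟨i, j, hi, hj, hij, hi2, hj2, h1, h2⟩ := h.cnt β
        exact ⟨i, j, by omega, by omega, hij, h1, h2⟩
    exact hs.false hS (by omega) h7 (by omega) hN hN' h.pr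
  | succ d ih =>
    intro p T b hd h
    have h5 : 5 ≤ n := by
      have : 0 < finrank ℂ V := finrank_pos
      omega
    exact ih (p + 1) _ _ (by omega) (h.step (by omega) hN' (by omega))

end Pool.Agent.K14
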