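import Pool.Agent.K14.Wt
import Pool.Agent.Frm14.App

/-! The situation for a family of automorphisms and a set of conjugates, and its invariance under
the exchange of neighbouring strands. -/

set_option autoImplicit false

namespace Pool.Agent.K14

open Module
open Pool.Agent.Conf14 (g_comm)
open Pool.Agent.Frm14

section
variable {G : Type*} [Group G] {n : ℕ} {b : ℕ → ℕ → G}

theorem c3a (h : PBN n b) {i j k : ℕ} (hij : i < j) (hjk : j < k) (hk : k < n)
    (hc : Commute (b i j) (b i k)) : Commute (b i j) (b j k) := by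
  have h0 := h.t0 hij hjk hk
  have e : b j k = (b i k)⁻¹ * (b i j)⁻¹ * (b i j * b i k * b j k) := by group
  rw [e]
  exact (hc.inv_right.mul_right (Commute.refl _).inv_right).mul_right h0.symm

theorem c3b (h : PBN n b) {i j k : ℕ} (hij : i < j) (hjk : j < k) (hk : k < n)
    (hc : Commute (b i k) (b j k)) : Commute (b i j) (b j k) := by
  have h2 := h.t2 i j k hij hjk hk
  have e : b i j = (b i j * b i k * b j k) * (b j k)⁻¹ * (b i k)⁻¹ := by group
  rw [e]
  exact (h2.mul_left (Commute.refl _).inv_left).mul_left hc.inv_left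

theorem sl_sl (p i : ℕ) : sl p (sl p i) = i := by
  unfold sl
  split_ifs <;> omega

theorem sl_lt {p i m : ℕ} (hp : p + 1 < m) (hi : i < m) : sl p i < m := by
  unfold sl
  split_ifs <;> omega

end

variable {V : Type*} [AddCommGroup V] [Module ℂ V]

theorem inv_stable [FiniteDimensional ℂ V] {f : V ≃ₗ[ℂ] V} {W : Submodule ℂ V}
    (h : ∀ v ∈ W, f v ∈ W) : ∀ v ∈ W, (f⁻¹ : V ≃ₗ[ℂ] V) v ∈ W := by
  have h1 : W.map f.toLinearMap ≤ W := by
    rintro _ ⟨v, hv, rfl⟩
    exact h v hv
  have h2 : W.map f.toLinearMap = W :=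
    Submodule.eq_of_le_of_finrank_le h1 (by rw [← LinearEquiv.finrank_map_eq f W])
  intro v hv
  rw [← h2] at hv
  obtain ⟨u, hu, rfl⟩ := hv
  have : (f⁻¹ : V ≃ₗ[ℂ] V) (f u) = u := f.symm_apply_apply u
  show (f⁻¹ : V ≃ₗ[ℂ] V) (f u) ∈ W
  rw [this]
  exact hu

structure Sit (n m : ℕ) (H : Subgroup (V ≃ₗ[ℂ] V)) (N : Set (V ≃ₗ[ℂ] V)) (T : ℕ → Bool)
    (b : ℕ → ℕ → (V ≃ₗ[ℂ] V)) : Prop where
  pbn : PBN n b
  mem : ∀ i j, i < j → j < n → b i j ∈ H
  irr : ∀ s, s < n → ∀ W : Submodule ℂ V,
    (∀ i j, i < j → j < n → (i = s ∨ j = s) → ∀ v ∈ W, b i j v ∈ W) → W = ⊥ ∨ W = ⊤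
  nc : ∀ i j k, i < j → j < k → k < n → ¬ Commute (b i j) (b j k)
  tr : ∀ i j, i < j → j < m → T i ≠ T j → ∀ z ∈ N, Commute (b i j) z
  cnt : ∀ β, ∃ i j, i < m ∧ j < m ∧ i ≠ j ∧ T i = β ∧ T j = β

theorem Sit.exch [FiniteDimensional ℂ V] {n m : ℕ} {H : Subgroup (V ≃ₗ[ℂ] V)}
    {N : Set (V ≃ₗ[ℂ] V)} {T : ℕ → Bool} {b : ℕ → ℕ → (V ≃ₗ[ℂ] V)} (h : Sit n m H N T b)
    (hmn : m ≤ n) (hN : ∀ g ∈ H, ∀ z ∈ N, g⁻¹ * z * g ∈ N) {p : ℕ} (hp : p + 1 < m) :
    Sit n m H N (fun i => T (sl p i)) (sw b p) := by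
  have hpn : p + 1 < n := by omega
  have hx : b p (p + 1) ∈ H := h.mem p (p + 1) (by omega) hpn
  have hxi : (b p (p + 1))⁻¹ ∈ H := H.inv_mem hx
  have L := fun {i j : ℕ} (hij : i < j) (hj : j < n) => h.pbn.sw_lift hpn hij hj
  have Lm := fun {i j : ℕ} (hij : i < j) (hj : j < m) => (h.pbn.mono hmn).sw_lift hp hij hj
  have cjc : ∀ {x u v : V ≃ₗ[ℂ] V}, Commute (x * u * x⁻¹) (x * v * x⁻¹) → Commute u v := by
    intro x u v hc
    have := conj_comm (x := x⁻¹) hc
    have e1 : x⁻¹ * (x * u * x⁻¹) * x⁻¹⁻¹ = u := by group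
    have e2 : x⁻¹ * (x * v * x⁻¹) * x⁻¹⁻¹ = v := by group
    rwa [e1, e2] at this
  refine ⟨h.pbn.exch hpn, ?_, ?_, ?_, ?_, ?_⟩
  · -- mem
    intro i j hij hj
    by_cases c1 : i ≠ p + 1 ∧ j ≠ p + 1
    · obtain ⟨e, l1, l2⟩ := (L hij hj).1 c1
      rw [e]
      exact h.mem _ _ l1 l2
    · by_cases c2 : i ≠ p ∧ j ≠ p
      · obtain ⟨e, l1, l2⟩ := (L hij hj).2 c2
        rw [e]
        exact H.mul_mem (H.mul_mem hx (h.mem _ _ l1 l2)) hxi
      · obtain ⟨rfl, rfl⟩ : i = p ∧ j = p + 1 := by omega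
        rw [sw_x]
        exact hx
  · -- irr
    intro s hs W hW
    rcases Nat.lt_trichotomy s p with hsp | hsp | hsp
    · -- s < p
      apply h.irr s hs W
      have h1 : ∀ v ∈ W, b s (p + 1) v ∈ W := by
        have := hW s p hsp (by omega) (Or.inl rfl)
        rwa [sw_j] at this
      have h2 : ∀ v ∈ W, (b p (p + 1) * b s p * (b p (p + 1))⁻¹) v ∈ W := by
        have := hW s (p + 1) (by omega) hpn (Or.inl rfl)
        rwa [sw_j1 (by omega)] at this
      have h3 : ∀ v ∈ W, b s p v ∈ W := by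
        obtain ⟨c1, c2⟩ := h.pbn.cyc hsp (show p < p + 1 by omega) hpn
        have e : b s p = b s (p + 1) * (b p (p + 1) * b s p * (b p (p + 1))⁻¹) *
            (b s (p + 1))⁻¹ := by
          have e1 : b s p * b s (p + 1) = b s (p + 1) * (b p (p + 1) * b s p * (b p (p + 1))⁻¹) := by
            calc b s p * b s (p + 1) = b s p * b s (p + 1) * b p (p + 1) * (b p (p + 1))⁻¹ := by group
              _ = _ := by rw [c1]; group
          rw [← e1]; group
        intro v hv
        rw [e]
        exact h1 _ (h2 _ (inv_stable h1 v hv))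
      intro i j hij hj hs'
      by_cases hjp : j = p
      · subst hjp
        obtain rfl : i = s := by omega
        exact h3
      by_cases hjp1 : j = p + 1
      · subst hjp1
        obtain rfl : i = s := by omega
        exact h1
      have := hW i j hij hj hs'
      by_cases hip : i = p
      · omega
      by_cases hip1 : i = p + 1
      · omega
      rwa [sw_o hjp hjp1 hip hip1] at this
    · -- s = p: the entries of the strand `p + 1`
      subst hsp
      apply h.irr (s + 1) hpn W
      intro i j hij hj hs'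
      by_cases hi1 : i = s + 1
      · subst hi1
        have := hW s j (by omega) hj (Or.inl rfl)
        rwa [sw_i (by omega) (by omega)] at this
      obtain rfl : j = s + 1 := by omega
      by_cases his : i = s
      · subst his
        have := hW i (i + 1) (by omega) hj (Or.inl rfl)
        rwa [sw_x] at this
      · have := hW i s (by omega) (by omega) (Or.inr rfl)
        rwa [sw_j] at this
    · rcases Nat.lt_or_ge (p + 1) s with hsp1 | hsp1
      · -- s > p + 1
        apply h.irr s hs W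
        have h1 : ∀ v ∈ W, b (p + 1) s v ∈ W := by
          have := hW p s (by omega) hs (Or.inr rfl)
          rwa [sw_i (by omega) (by omega)] at this
        have h2 : ∀ v ∈ W, (b p (p + 1) * b p s * (b p (p + 1))⁻¹) v ∈ W := by
          have := hW (p + 1) s (by omega) hs (Or.inr rfl)
          rwa [sw_i1 (by omega) (by omega)] at this
        have h3 : ∀ v ∈ W, b p s v ∈ W := by
          obtain ⟨c1, c2⟩ := h.pbn.cyc (show p < p + 1 by omega) hsp1 hs
          have e : b p s = b (p + 1) s * (b p (p + 1) * b p s * (b p (p + 1))⁻¹) *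
              (b (p + 1) s)⁻¹ := by
            have e1 : b p s * b (p + 1) s =
                b (p + 1) s * (b p (p + 1) * b p s * (b p (p + 1))⁻¹) := by
              have e2 : b (p + 1) s * b p (p + 1) * b p s = b p s * b (p + 1) s * b p (p + 1) := by
                rw [← c2, c1]
              calc b p s * b (p + 1) s = b p s * b (p + 1) s * b p (p + 1) * (b p (p + 1))⁻¹ := by group
                _ = _ := by rw [← e2]; group
            rw [← e1]; group
          intro v hv
          rw [e]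
          exact h1 _ (h2 _ (inv_stable h1 v hv))
        intro i j hij hj hs'
        by_cases hip : i = p
        · subst hip
          obtain rfl : j = s := by omega
          exact h3
        by_cases hip1 : i = p + 1
        · subst hip1
          obtain rfl : j = s := by omega
          exact h1
        have := hW i j hij hj hs'
        rwa [sw_o (by omega) (by omega) hip hip1] at this
      · -- s = p + 1: the entries of the strand `p`
        obtain rfl : s = p + 1 := by omega
        apply h.irr p (by omega) W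
        have hxW : ∀ v ∈ W, b p (p + 1) v ∈ W := by
          have := hW p (p + 1) (by omega) hpn (Or.inr rfl)
          rwa [sw_x] at this
        have hcj : ∀ f : V ≃ₗ[ℂ] V, (∀ v ∈ W, (b p (p + 1) * f * (b p (p + 1))⁻¹) v ∈ W) →
            ∀ v ∈ W, f v ∈ W := by
          intro f hf v hv
          have e : f = (b p (p + 1))⁻¹ * (b p (p + 1) * f * (b p (p + 1))⁻¹) * b p (p + 1) := by
            group
          rw [e]
          exact inv_stable hxW _ (hf _ (hxW v hv))
        intro i j hij hj hs'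
        by_cases hjp : j = p
        · subst hjp
          apply hcj
          have := hW i (j + 1) (by omega) hpn (Or.inr rfl)
          rwa [sw_j1 (by omega)] at this
        obtain rfl : i = p := by omega
        by_cases hjp1 : j = i + 1
        · subst hjp1
          exact hxW
        apply hcj
        have := hW (i + 1) j (by omega) hj (Or.inl rfl)
        rwa [sw_i1 (by omega) hjp1] at this
  · -- nc
    intro i j k hij hjk hk hc
    by_cases c1 : i ≠ p + 1 ∧ j ≠ p + 1 ∧ k ≠ p + 1
    · obtain ⟨e1, l1, -⟩ := (L hij (by omega)).1 ⟨c1.1, c1.2.1⟩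
      obtain ⟨e3, l3, m3⟩ := (L hjk hk).1 ⟨c1.2.1, c1.2.2⟩
      rw [e1, e3] at hc
      exact h.nc _ _ _ l1 l3 m3 hc
    · by_cases c2 : i ≠ p ∧ j ≠ p ∧ k ≠ p
      · obtain ⟨e1, l1, -⟩ := (L hij (by omega)).2 ⟨c2.1, c2.2.1⟩
        obtain ⟨e3, l3, m3⟩ := (L hjk hk).2 ⟨c2.2.1, c2.2.2⟩
        rw [e1, e3] at hc
        exact h.nc _ _ _ l1 l3 m3 (cjc hc)
      · have hcc : (i = p ∧ j = p + 1) ∨ (j = p ∧ k = p + 1) := by omega
        rcases hcc with ⟨rfl, rfl⟩ | ⟨rfl, rfl⟩
        · rw [sw_x, sw_i1 (by omega) (by omega)] at hc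
          apply h.nc i (i + 1) k (by omega) hjk hk
          apply c3a h.pbn (by omega) hjk hk
          apply cjc (x := b i (i + 1))
          have e : b i (i + 1) * b i (i + 1) * (b i (i + 1))⁻¹ = b i (i + 1) := by group
          rwa [e]
        · rw [sw_j, sw_x] at hc
          exact h.nc i j (j + 1) hij (by omega) hk (c3b h.pbn hij (by omega) hk hc)
  · -- tr
    intro i j hij hj hT z hz
    by_cases c1 : i ≠ p + 1 ∧ j ≠ p + 1
    · obtain ⟨e, l1, l2⟩ := (Lm hij hj).1 c1
      rw [e]
      exact h.tr _ _ l1 l2 hT z hz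
    · by_cases c2 : i ≠ p ∧ j ≠ p
      · obtain ⟨e, l1, l2⟩ := (Lm hij hj).2 c2
        rw [e]
        have h1 := h.tr _ _ l1 l2 hT _ (hN _ hx z hz)
        have h2 := conj_comm (x := b p (p + 1)) h1
        have e2 : b p (p + 1) * ((b p (p + 1))⁻¹ * z * b p (p + 1)) * (b p (p + 1))⁻¹ = z := by
          group
        rwa [e2] at h2
      · obtain ⟨rfl, rfl⟩ : i = p ∧ j = p + 1 := by omega
        rw [sw_x]
        apply h.tr i (i + 1) (by omega) hp _ z hz
        have e1 : sl i i = i + 1 := by simp [sl]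
        have e2 : sl i (i + 1) = i := by simp [sl]
        rw [e1, e2] at hT
        exact hT.symm
  · -- cnt
    intro β
    obtain ⟨i, j, hi, hj, hij, h1, h2⟩ := h.cnt β
    refine ⟨sl p i, sl p j, sl_lt hp hi, sl_lt hp hj, ?_, ?_, ?_⟩
    · intro e
      apply hij
      rw [← sl_sl p i, e, sl_sl]
    · rw [sl_sl, h1]
    · rw [sl_sl, h2]

end Pool.Agent.K14
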