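import Pool.Agent.K14.Half

/-! The weight spaces of a commutative set of automorphisms which is normalised by an irreducible
group. -/

set_option autoImplicit false

namespace Pool.Agent.K14

open Module

variable {V : Type*} [AddCommGroup V] [Module ℂ V]

/-- the weight spaces -/
def Wt (N : Set (V ≃ₗ[ℂ] V)) : Set (Submodule ℂ V) :=
  {U | U ≠ ⊥ ∧ ∃ c : (V ≃ₗ[ℂ] V) → ℂ, ∀ v, v ∈ U ↔ ∀ n ∈ N, n v = c n • v}

variable {N : Set (V ≃ₗ[ℂ] V)}

theorem Wt.scalar {U : Submodule ℂ V} (hU : U ∈ Wt N) {n : V ≃ₗ[ℂ] V} (hn : n ∈ N) :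
    ∃ c : ℂ, ∀ v ∈ U, n v = c • v := by
  obtain ⟨-, c, hc⟩ := hU
  exact ⟨c n, fun v hv => (hc v).mp hv n hn⟩

theorem Wt.fix {U : Submodule ℂ V} (hU : U ∈ Wt N) {z : V ≃ₗ[ℂ] V}
    (hz : ∀ n ∈ N, Commute z n) : U.map z.toLinearMap = U := by
  obtain ⟨-, c, hc⟩ := hU
  have key : ∀ z : V ≃ₗ[ℂ] V, (∀ n ∈ N, Commute z n) → ∀ v ∈ U, z v ∈ U := by
    intro z hz v hv
    rw [hc] at hv ⊢
    intro n hn
    have h1 : n (z v) = z (n v) := (LinearEquiv.congr_fun (hz n hn).eq v).symm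
    rw [h1, hv n hn, map_smul]
  apply le_antisymm
  · rintro _ ⟨v, hv, rfl⟩
    exact key z hz v hv
  · intro v hv
    refine ⟨z⁻¹ v, key z⁻¹ (fun n hn => (hz n hn).inv_left) v hv, ?_⟩
    exact z.apply_symm_apply v

theorem Wt.map {U : Submodule ℂ V} (hU : U ∈ Wt N) {h : V ≃ₗ[ℂ] V}
    (h1 : ∀ n ∈ N, h⁻¹ * n * h ∈ N) (h2 : ∀ n ∈ N, h * n * h⁻¹ ∈ N) :
    U.map h.toLinearMap ∈ Wt N := by
  obtain ⟨h0, c, hc⟩ := hU
  refine ⟨?_, fun n => c (h⁻¹ * n * h), fun v => ?_⟩
  · intro hb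
    apply h0
    rw [eq_bot_iff]
    intro v hv
    have : h v ∈ U.map h.toLinearMap := ⟨v, hv, rfl⟩
    rw [hb, Submodule.mem_bot] at this
    exact (map_eq_zero_iff h h.injective).mp this
  · have e1 : v ∈ U.map h.toLinearMap ↔ h⁻¹ v ∈ U := by
      constructor
      · rintro ⟨u, hu, rfl⟩
        have : h⁻¹ (h u) = u := h.symm_apply_apply u
        show h⁻¹ (h u) ∈ U
        rw [this]
        exact hu
      · intro hv
        exact ⟨_, hv, h.apply_symm_apply v⟩
    rw [e1, hc]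
    constructor
    · intro hv n hn
      have := hv _ (h1 n hn)
      have e2 : (h⁻¹ * n * h) (h⁻¹ v) = h⁻¹ (n v) := by
        have : (h⁻¹ * n * h) * h⁻¹ = h⁻¹ * n := by group
        exact LinearEquiv.congr_fun this v
      rw [e2] at this
      have e3 := congrArg h this
      rw [map_smul] at e3
      have e4 : ∀ u, h (h⁻¹ u) = u := fun u => h.apply_symm_apply u
      rwa [e4, e4] at e3
    · intro hv n hn
      have := hv _ (h2 n hn)
      have e2 : (h * n * h⁻¹) v = h (n (h⁻¹ v)) := rfl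
      have e3 : h⁻¹ * (h * n * h⁻¹) * h = n := by group
      simp only [] at this
      rw [e2, e3] at this
      have e4 := congrArg (h⁻¹ : V ≃ₗ[ℂ] V) this
      rw [map_smul] at e4
      have e5 : ∀ u, (h⁻¹ : V ≃ₗ[ℂ] V) (h u) = u := fun u => h.symm_apply_apply u
      rwa [e5] at e4

/-- the weight spaces span -/
theorem Wt.top [FiniteDimensional ℂ V] [Nontrivial V] {H : Set (V ≃ₗ[ℂ] V)}
    (hirr : ∀ W : Submodule ℂ V, (∀ f ∈ H, ∀ x ∈ W, f x ∈ W) → W = ⊥ ∨ W = ⊤)
    (h1 : ∀ h ∈ H, ∀ n ∈ N, h⁻¹ * n * h ∈ N) (h2 : ∀ h ∈ H, ∀ n ∈ N, h * n * h⁻¹ ∈ N)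
    (hc : ∀ n ∈ N, ∀ n' ∈ N, Commute n n') : sSup (Wt N) = ⊤ := by
  classical
  obtain ⟨d, hd0, hmin, htop⟩ := exists_small hirr h1
  obtain ⟨W1, hW1⟩ : ({U : Submodule ℂ V | Inv N U ∧ finrank ℂ U = d}).Nonempty := by
    rw [Set.nonempty_iff_ne_empty]
    intro h0
    rw [h0, sSup_empty] at htop
    exact bot_ne_top htop
  obtain ⟨hI, hd⟩ := hW1
  have hne : W1 ≠ ⊥ := by
    intro h
    rw [h, finrank_bot] at hd
    omega
  -- scalars on the minimal subspace
  have hsc : ∀ n : V ≃ₗ[ℂ] V, ∃ c : ℂ, n ∈ N → ∀ v ∈ W1, n v = c • v := by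
    intro n
    by_cases hn : n ∈ N
    · have : Nontrivial W1 := Submodule.nontrivial_iff_ne_bot.mpr hne
      obtain ⟨c, hev⟩ := Module.End.exists_eigenvalue (n.toLinearMap.restrict (hI n hn))
      obtain ⟨w, hw⟩ := hev.exists_hasEigenvector
      have hw1 : n (w : V) = c • (w : V) := congrArg Subtype.val
        (show (n.toLinearMap.restrict (hI n hn)) w = c • w from
          Module.End.mem_eigenspace_iff.mp hw.1)
      refine ⟨c, fun _ => ?_⟩
      let E : Submodule ℂ V := W1 ⊓ End.eigenspace n.toLinearMap c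
      have hEmem : ∀ v, v ∈ E ↔ v ∈ W1 ∧ n v = c • v := fun v => by
        show v ∈ W1 ∧ v ∈ End.eigenspace n.toLinearMap c ↔ _
        rw [End.mem_eigenspace_iff]
        rfl
      have hE : Inv N E := by
        intro n' hn' v hv
        rw [hEmem] at hv ⊢
        refine ⟨hI n' hn' v hv.1, ?_⟩
        have e1 : n (n' v) = n' (n v) := LinearEquiv.congr_fun (hc n hn n' hn').eq v
        rw [e1, hv.2, map_smul]
      have hE0 : E ≠ ⊥ := by
        intro h
        have : (w : V) ∈ E := (hEmem _).mpr ⟨w.2, hw1⟩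
        rw [h, Submodule.mem_bot] at this
        exact hw.2 (Subtype.ext this)
      have h3 := hmin E hE0 hE
      have h4 : E = W1 := Submodule.eq_of_le_of_finrank_le inf_le_left (by rw [hd]; exact h3)
      intro v hv
      rw [← h4, hEmem] at hv
      exact hv.2
    · exact ⟨0, fun h => absurd h hn⟩
  choose c hc' using hsc
  let U0 : Submodule ℂ V :=
    { carrier := {v | ∀ n ∈ N, n v = c n • v}
      zero_mem' := fun n _ => by rw [map_zero, smul_zero]
      add_mem' := fun {u v} hu hv n hn => by rw [map_add, hu n hn, hv n hn, smul_add]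
      smul_mem' := fun a v hv n hn => by rw [map_smul, hv n hn, smul_comm] }
  have hU0 : U0 ∈ Wt N := by
    refine ⟨?_, c, fun v => Iff.rfl⟩
    intro h
    apply hne
    rw [eq_bot_iff, ← h]
    exact fun v hv n hn => hc' n hn v hv
  rcases hirr (sSup (Wt N)) (by
    intro f hf
    have : sSup (Wt N) ≤ (sSup (Wt N)).comap f.toLinearMap := by
      refine sSup_le fun U hU x hx => ?_
      exact (le_sSup (Wt.map hU (h1 f hf) (h2 f hf))) ⟨x, hx, rfl⟩
    exact fun x hx => this hx) with h3 | h3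
  · exfalso
    apply hU0.1
    rw [eq_bot_iff, ← h3]
    exact le_sSup hU0
  · exact h3

end Pool.Agent.K14
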